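import Pool.Agent.MTLS.Level

/-!
# Averages over configurations, level after level from the top
-/

namespace Pool.Agent.MTLS

open Finset

/-- level, phase, bits -/
abbrev Cf (N : ℕ) := ℕ × ℤ × (Fin N → Bool)

noncomputable section

/-- indicator of a proposition -/
def ind (P : Prop) : ℝ := by classical exact if P then 1 else 0

lemma ind_nonneg (P : Prop) : 0 ≤ ind P := by unfold ind; split_ifs <;> norm_num

lemma ind_le_one (P : Prop) : ind P ≤ 1 := by unfold ind; split_ifs <;> norm_num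

lemma ind_true {P : Prop} (h : P) : ind P = 1 := by unfold ind; rw [if_pos h]

lemma ind_false {P : Prop} (h : ¬ P) : ind P = 0 := by unfold ind; rw [if_neg h]

lemma ind_mono {P Q : Prop} (h : P → Q) : ind P ≤ ind Q := by
  by_cases hP : P
  · rw [ind_true hP, ind_true (h hP)]
  · rw [ind_false hP]; exact ind_nonneg _

lemma ind_or (P Q : Prop) : ind (P ∨ Q) ≤ ind P + ind Q := by
  by_cases hP : P
  · rw [ind_true hP, ind_true (Or.inl hP)]; linarith [ind_nonneg Q]
  · by_cases hQ : Q
    · rw [ind_true hQ, ind_true (Or.inr hQ)]; linarith [ind_nonneg P]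
    · rw [ind_false (by tauto)]; linarith [ind_nonneg P, ind_nonneg Q]

lemma ind_and (P Q : Prop) : ind (P ∧ Q) = ind P * ind Q := by
  by_cases hP : P
  · by_cases hQ : Q
    · rw [ind_true hP, ind_true hQ, ind_true ⟨hP, hQ⟩]; ring
    · rw [ind_false hQ, ind_false (by tauto)]; ring
  · rw [ind_false hP, ind_false (by tauto)]; ring

lemma sum_ind {α : Type} (s : Finset α) (P : α → Prop) (B : ℝ)
    (h : ∀ T : Finset α, T ⊆ s → (∀ a ∈ T, P a) → (T.card : ℝ) ≤ B) :
    ∑ a ∈ s, ind (P a) ≤ B := by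
  classical
  have e : ∑ a ∈ s, ind (P a) = ((s.filter P).card : ℝ) := by
    rw [Finset.card_filter]
    push_cast
    refine Finset.sum_congr rfl fun a _ => ?_
    unfold ind
    split_ifs <;> rfl
  rw [e]
  exact h _ (filter_subset _ _) (fun a ha => (mem_filter.mp ha).2)

/-- average over one level -/
def av {N : ℕ} (J l : ℕ) (Φ : Cf N → ℝ) : ℝ :=
  (∑ τ ∈ Ico 0 (RR J l), ∑ X : Fin N → Bool, Φ (l, τ, X)) / ((RR J l : ℝ) * 2 ^ N)

variable {N : ℕ} {J : ℕ}

lemma den_pos (hJ : 16 ≤ J) (l : ℕ) : (0 : ℝ) < (RR J l : ℝ) * 2 ^ N := by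
  have := RR_pos J l hJ
  have h2 : (0 : ℝ) < RR J l := by exact_mod_cast this
  positivity

lemma av_mono (hJ : 16 ≤ J) (l : ℕ) {Φ Ψ : Cf N → ℝ}
    (h : ∀ τ X, 0 ≤ τ → τ < RR J l → Φ (l, τ, X) ≤ Ψ (l, τ, X)) : av J l Φ ≤ av J l Ψ := by
  unfold av
  refine div_le_div_of_nonneg_right ?_ (den_pos hJ l).le
  refine Finset.sum_le_sum fun τ hτ => Finset.sum_le_sum fun X _ => ?_
  rw [mem_Ico] at hτ
  exact h τ X hτ.1 hτ.2

lemma av_congr (l : ℕ) {Φ Ψ : Cf N → ℝ} (h : ∀ τ X, Φ (l, τ, X) = Ψ (l, τ, X)) :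
    av J l Φ = av J l Ψ := by
  unfold av
  congr 1
  exact Finset.sum_congr rfl fun τ _ => Finset.sum_congr rfl fun X _ => h τ X

lemma av_const (hJ : 16 ≤ J) (l : ℕ) (a : ℝ) : av (N := N) J l (fun _ => a) = a := by
  unfold av
  have h := RR_pos J l hJ
  rw [Finset.sum_const, Finset.sum_const, Int.card_Ico, card_univ, Fintype.card_fun,
    Fintype.card_bool, Fintype.card_fin, nsmul_eq_mul, nsmul_eq_mul]
  have hc : (((RR J l - 0).toNat : ℕ) : ℝ) = (RR J l : ℝ) := by
    have : ((RR J l - 0).toNat : ℤ) = RR J l := by rw [Int.toNat_of_nonneg (by linarith)]; ring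
    exact_mod_cast this
  rw [hc]
  push_cast
  have h2 : (0 : ℝ) < RR J l := by exact_mod_cast h
  field_simp

lemma av_add (l : ℕ) (Φ Ψ : Cf N → ℝ) :
    av J l (fun ω => Φ ω + Ψ ω) = av J l Φ + av J l Ψ := by
  unfold av
  simp only [Finset.sum_add_distrib]
  rw [add_div]

lemma av_mul (l : ℕ) (a : ℝ) (Φ : Cf N → ℝ) :
    av J l (fun ω => a * Φ ω) = a * av J l Φ := by
  unfold av
  simp only [← Finset.mul_sum]
  rw [mul_div_assoc]

lemma av_sum {α : Type} (l : ℕ) (s : Finset α) (Φ : α → Cf N → ℝ) :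
    av J l (fun ω => ∑ a ∈ s, Φ a ω) = ∑ a ∈ s, av J l (Φ a) := by
  classical
  induction s using Finset.induction_on with
  | empty =>
    simp only [Finset.sum_empty]
    unfold av
    simp
  | insert a s ha ih =>
    simp only [Finset.sum_insert ha]
    rw [av_add, ih]

/-- average over the `t` top levels -/
def EE (J : ℕ) : ℕ → (List (Cf N) → ℝ) → ℝ
  | 0, Φ => Φ []
  | t + 1, Φ => EE J t (fun c => av J (J - 1 - t) (fun ω => Φ (ω :: c)))

/-- lists with the levels `J-1, …, J-t`, lowest first -/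
def Lv (J : ℕ) : ℕ → List (Cf N) → Prop
  | 0, c => c = []
  | t + 1, c => ∃ ω c', c = ω :: c' ∧ ω.1 = J - 1 - t ∧ Lv J t c'

lemma EE_mono (hJ : 16 ≤ J) (t : ℕ) {Φ Ψ : List (Cf N) → ℝ}
    (h : ∀ c, Lv J t c → Φ c ≤ Ψ c) : EE J t Φ ≤ EE J t Ψ := by
  induction t generalizing Φ Ψ with
  | zero => exact h [] rfl
  | succ t ih =>
    refine ih fun c hc => av_mono hJ _ fun τ X _ _ => h _ ⟨_, c, rfl, rfl, hc⟩

lemma EE_add (t : ℕ) (Φ Ψ : List (Cf N) → ℝ) :
    EE J t (fun c => Φ c + Ψ c) = EE J t Φ + EE J t Ψ := by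
  induction t generalizing Φ Ψ with
  | zero => rfl
  | succ t ih =>
    simp only [EE]
    rw [← ih]
    simp only [av_add]

lemma EE_mul (t : ℕ) (a : ℝ) (Φ : List (Cf N) → ℝ) :
    EE J t (fun c => a * Φ c) = a * EE J t Φ := by
  induction t generalizing Φ with
  | zero => rfl
  | succ t ih =>
    simp only [EE]
    rw [← ih]
    simp only [av_mul]

lemma EE_const (hJ : 16 ≤ J) (t : ℕ) (a : ℝ) : EE (N := N) J t (fun _ => a) = a := by
  induction t with
  | zero => rfl
  | succ t ih =>
    simp only [EE, av_const hJ]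
    exact ih

lemma EE_sum {α : Type} (t : ℕ) (s : Finset α) (Φ : α → List (Cf N) → ℝ) :
    EE J t (fun c => ∑ a ∈ s, Φ a c) = ∑ a ∈ s, EE J t (Φ a) := by
  classical
  induction s using Finset.induction_on with
  | empty =>
    simp only [Finset.sum_empty]
    have h := EE_mul (J := J) (N := N) t 0 (fun _ => 0)
    simpa using h
  | insert a s ha ih =>
    simp only [Finset.sum_insert ha]
    rw [EE_add, ih]

lemma EE_av (t l : ℕ) (Φ : List (Cf N) → Cf N → ℝ) :
    EE J t (fun c => av J l (fun ω => Φ c ω)) = av J l (fun ω => EE J t (fun c => Φ c ω)) := by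
  unfold av
  have e : ∀ c, (∑ τ ∈ Ico 0 (RR J l), ∑ X : Fin N → Bool, Φ c (l, τ, X)) /
      ((RR J l : ℝ) * 2 ^ N) = (1 / ((RR J l : ℝ) * 2 ^ N)) *
      ∑ τ ∈ Ico 0 (RR J l), ∑ X : Fin N → Bool, Φ c (l, τ, X) := fun c => by ring
  simp only [e]
  rw [EE_mul, EE_sum]
  simp only [EE_sum]
  ring

lemma EE_nonneg (hJ : 16 ≤ J) (t : ℕ) {Φ : List (Cf N) → ℝ} (h : ∀ c, 0 ≤ Φ c) :
    0 ≤ EE J t Φ := by
  have := EE_mono hJ t (Φ := fun _ => (0 : ℝ)) (Ψ := Φ) (fun c _ => h c)
  rwa [EE_const hJ] at this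

lemma EE_exists (hJ : 16 ≤ J) (t : ℕ) (Φ : List (Cf N) → ℝ) :
    ∃ c, Lv J t c ∧ Φ c ≤ EE J t Φ := by
  induction t generalizing Φ with
  | zero => exact ⟨[], rfl, le_rfl⟩
  | succ t ih =>
    obtain ⟨c, hc, h⟩ := ih (fun c => av J (J - 1 - t) (fun ω => Φ (ω :: c)))
    have hex : ∃ τ X, Φ ((J - 1 - t, τ, X) :: c) ≤ av J (J - 1 - t) (fun ω => Φ (ω :: c)) := by
      by_contra hcon
      push Not at hcon
      have h1 : av J (J - 1 - t) (fun ω => Φ (ω :: c)) <
          av J (J - 1 - t) (fun ω => Φ (ω :: c)) := by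
        conv_lhs => rw [← av_const (N := N) hJ (J - 1 - t)
          (av J (J - 1 - t) (fun ω => Φ (ω :: c)))]
        unfold av
        refine div_lt_div_of_pos_right ?_ (den_pos hJ _)
        have hne : (Ico 0 (RR J (J - 1 - t))).Nonempty :=
          ⟨0, mem_Ico.mpr ⟨le_rfl, RR_pos J _ hJ⟩⟩
        refine Finset.sum_lt_sum_of_nonempty hne fun τ _ => ?_
        refine Finset.sum_lt_sum_of_nonempty ⟨fun _ => true, mem_univ _⟩ fun X _ => ?_
        exact hcon τ X
      exact lt_irrefl _ h1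
    obtain ⟨τ, X, hle⟩ := hex
    exact ⟨_, ⟨_, c, rfl, rfl, hc⟩, hle.trans h⟩

/-- three bits in different blocks are equal with probability `1/4` -/
lemma bits_count (a b c : ℤ) (ha : 0 ≤ a) (hab : a < b) (hbc : b < c) (hc : c < N)
    (T : Finset (Fin N → Bool))
    (hT : ∀ X ∈ T, bit X a = bit X b ∧ bit X b = bit X c) : 4 * T.card ≤ 2 ^ N := by
  classical
  have ha' : a.toNat < N := by omega
  have hb' : b.toNat < N := by omega
  have hc' : c.toNat < N := by omega
  set A : Fin N := ⟨a.toNat, ha'⟩ with hA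
  set B : Fin N := ⟨b.toNat, hb'⟩ with hB
  set C : Fin N := ⟨c.toNat, hc'⟩ with hC
  have hAB : A ≠ B := by
    intro h
    have := congrArg Fin.val h
    simp only [hA, hB] at this
    omega
  have hAC : A ≠ C := by
    intro h
    have := congrArg Fin.val h
    simp only [hA, hC] at this
    omega
  have hBC : B ≠ C := by
    intro h
    have := congrArg Fin.val h
    simp only [hB, hC] at this
    omega
  have bitA : ∀ X : Fin N → Bool, bit X a = X A := fun X => by unfold bit; rw [dif_pos ha']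
  have bitB : ∀ X : Fin N → Bool, bit X b = X B := fun X => by unfold bit; rw [dif_pos hb']
  have bitC : ∀ X : Fin N → Bool, bit X c = X C := fun X => by unfold bit; rw [dif_pos hc']
  set F : (Fin N → Bool) × (Bool × Bool) → (Fin N → Bool) := fun p =>
    Function.update (Function.update p.1 A (xor (p.1 A) p.2.1)) B (xor (p.1 B) p.2.2) with hF
  have hinj : Set.InjOn F ((T ×ˢ (univ : Finset (Bool × Bool)) : Finset _) :
      Set ((Fin N → Bool) × (Bool × Bool))) := by
    rintro ⟨X, s, t⟩ h1 ⟨X', s', t'⟩ h2 h3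
    rw [SetLike.mem_coe, mem_product] at h1 h2
    have g1 := hT X h1.1
    have g2 := hT X' h2.1
    rw [bitA, bitB, bitC] at g1 g2
    have hCC := congrFun h3 C
    have hAA := congrFun h3 A
    have hBB := congrFun h3 B
    simp only [hF] at hCC hAA hBB
    rw [Function.update_of_ne hBC.symm, Function.update_of_ne hAC.symm,
      Function.update_of_ne hBC.symm, Function.update_of_ne hAC.symm] at hCC
    rw [Function.update_of_ne hAB, Function.update_self,
      Function.update_of_ne hAB, Function.update_self] at hAA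
    rw [Function.update_self, Function.update_self] at hBB
    have eA : X A = X' A := by rw [g1.1, g1.2, hCC, ← g2.2, ← g2.1]
    have eB : X B = X' B := by rw [g1.2, hCC, ← g2.2]
    rw [eA] at hAA
    rw [eB] at hBB
    have es : s = s' := by
      revert hAA
      cases X' A <;> cases s <;> cases s' <;> simp
    have et : t = t' := by
      revert hBB
      cases X' B <;> cases t <;> cases t' <;> simp
    have eX : X = X' := by
      funext i
      by_cases hiA : i = A
      · rw [hiA]; exact eA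
      · by_cases hiB : i = B
        · rw [hiB]; exact eB
        · have h4 := congrFun h3 i
          simp only [hF] at h4
          rw [Function.update_of_ne hiB, Function.update_of_ne hiA,
            Function.update_of_ne hiB, Function.update_of_ne hiA] at h4
          exact h4
    rw [eX, es, et]
  have h1 := Finset.card_le_card_of_injOn F (fun _ _ => mem_coe.mpr (mem_univ _)) hinj
    (t := univ)
  rw [card_product, card_univ, card_univ, Fintype.card_prod, Fintype.card_bool,
    Fintype.card_fun, Fintype.card_bool, Fintype.card_fin] at h1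
  omega

end

end Pool.Agent.MTLS
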