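import Pool.Agent.MTLS.Avg

/-!
# Configurations: modes, sums, lattice and continuous states
-/

namespace Pool.Agent.MTLS

open Finset

noncomputable section

/-- a bit as an integer -/
def bi (b : Bool) : ℤ := if b then 1 else 0

lemma ker_still (J b : ℤ) (hJ : 16 ≤ J) (slow s0 s1 : Bool) (r : ℤ)
    (h : (ker J b slow s0 s1 r).2 = 0) : (ker J b slow s0 s1 r).1 = b * bi s1 := by
  unfold ker bi at *
  cases slow <;> cases s0 <;> cases s1 <;> simp at h ⊢ <;> (try split_ifs at h ⊢) <;>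
    (try simp at h ⊢) <;> (try omega)

lemma ker_base (J b : ℤ) (hJ : 16 ≤ J) (slow s0 s1 : Bool) (r : ℤ)
    (h : (ker J b slow s0 s1 r).2 ≠ 0) :
    (ker J b slow s0 s1 r).1 = if 0 < (ker J b slow s0 s1 r).2 then 0 else b := by
  unfold ker at *
  cases slow <;> cases s0 <;> cases s1 <;> simp at h ⊢ <;> (try split_ifs at h ⊢) <;>
    (try simp at h ⊢) <;> (try omega)

variable {N : ℕ} {J : ℕ}

lemma Yv_bounds (hJ : 16 ≤ J) (l : ℕ) (τ : ℤ) (X : Fin N → Bool) (fx fy fz : Bool)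
    (x y z : ℤ) : |Yv J l τ X fx fy fz x y z| ≤ 2 * bb J l := by
  have h1 := vf_bounds J l hJ τ X fx x
  have h2 := vf_bounds J l hJ τ X fy y
  have h3 := vf_bounds J l hJ τ X fz z
  unfold Yv
  rw [abs_le]
  constructor <;> linarith

/-- the lattice states -/
lemma lattice (hJ : 16 ≤ J) (l : ℕ) (τ : ℤ) (X : Fin N → Bool) (fx fy fz : Bool)
    (x y z : ℤ) (hxz : x + z = 2 * y) (hn : ¬ Ct J l τ X fx fy fz x y z) :
    Yv J l τ X fx fy fz x y z = bb J l * (bi (bit X ((x + τ) / RR J l + 1)) +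
      bi (bit X ((z + τ) / RR J l + 1)) - 2 * bi (bit X ((y + τ) / RR J l + 1))) ∨
    (Yv J l τ X fx fy fz x y z = 0 ∧ (x + τ) % RR J l < bb J l) := by
  have hJ' : (16 : ℤ) ≤ J := by exact_mod_cast hJ
  have hR := RR_pos J l hJ
  have hb := bb_pos J l hJ
  have hbR := bb_RR J l
  unfold Ct at hn
  rw [not_not] at hn
  obtain ⟨h1, h2⟩ := hn
  by_cases h0 : (kf J l τ X fx x).2 = 0
  · left
    have h3 : (kf J l τ X fy y).2 = 0 := by rw [← h1, h0]
    have h4 : (kf J l τ X fz z).2 = 0 := by rw [← h2, h3]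
    unfold Yv
    rw [vf_eq, vf_eq, vf_eq, h0, h3, h4]
    unfold kf at h0 h3 h4 ⊢
    rw [ker_still _ _ hJ' _ _ _ _ h0, ker_still _ _ hJ' _ _ _ _ h3,
      ker_still _ _ hJ' _ _ _ _ h4]
    ring
  · right
    have h3 : (kf J l τ X fy y).2 ≠ 0 := by rw [← h1]; exact h0
    have h4 : (kf J l τ X fz z).2 ≠ 0 := by rw [← h2]; exact h3
    have r1 := Int.emod_nonneg (x + τ) hR.ne'
    have r2 := Int.emod_nonneg (y + τ) hR.ne'
    have r3 := Int.emod_nonneg (z + τ) hR.ne'
    have m1 : (x + τ) % RR J l < bb J l := ker_moving _ _ hJ' _ _ _ _ r1 h0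
    have m2 : (y + τ) % RR J l < bb J l := ker_moving _ _ hJ' _ _ _ _ r2 h3
    have m3 : (z + τ) % RR J l < bb J l := ker_moving _ _ hJ' _ _ _ _ r3 h4
    refine ⟨?_, m1⟩
    have b1 : (kf J l τ X fx x).1 = if 0 < (kf J l τ X fx x).2 then 0 else bb J l :=
      ker_base _ _ hJ' _ _ _ _ h0
    have b2 : (kf J l τ X fy y).1 = if 0 < (kf J l τ X fy y).2 then 0 else bb J l :=
      ker_base _ _ hJ' _ _ _ _ h3
    have b3 : (kf J l τ X fz z).1 = if 0 < (kf J l τ X fz z).2 then 0 else bb J l :=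
      ker_base _ _ hJ' _ _ _ _ h4
    have d1 := Int.mul_ediv_add_emod (x + τ) (RR J l)
    have d2 := Int.mul_ediv_add_emod (y + τ) (RR J l)
    have d3 := Int.mul_ediv_add_emod (z + τ) (RR J l)
    have hz : (x + τ) % RR J l + (z + τ) % RR J l - 2 * ((y + τ) % RR J l) = 0 := by
      have hdvd : RR J l ∣ (x + τ) % RR J l + (z + τ) % RR J l - 2 * ((y + τ) % RR J l) := by
        refine ⟨2 * ((y + τ) / RR J l) - (x + τ) / RR J l - (z + τ) / RR J l, ?_⟩
        linarith
      refine Int.eq_zero_of_abs_lt_dvd hdvd ?_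
      rw [abs_lt]
      constructor <;> linarith
    unfold Yv
    rw [vf_eq, vf_eq, vf_eq, b1, b2, b3, ← h2, ← h1]
    have e1 : x + τ - RR J l * ((x + τ) / RR J l) = (x + τ) % RR J l := by linarith
    have e2 : y + τ - RR J l * ((y + τ) / RR J l) = (y + τ) % RR J l := by linarith
    have e3 : z + τ - RR J l * ((z + τ) / RR J l) = (z + τ) % RR J l := by linarith
    rw [e1, e2, e3]
    have : (kf J l τ X fx x).2 * ((x + τ) % RR J l + (z + τ) % RR J l -
        2 * ((y + τ) % RR J l)) = 0 := by rw [hz]; ring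
    linarith

/-- the window of a level of `c` meets `[s, s + w)` -/
def near (J : ℕ) : List (Cf N) → ℤ → ℤ → Prop
  | [], _, _ => False
  | ω :: c, s, w => near J c s w ∨
      ∃ u, s ≤ u ∧ u < s + w ∧ (u + ω.2.1) % RR J ω.1 < 16 * 3 ^ ω.1

/-- the mode: slow if the potential window meets a window of a higher level -/
def fl (J : ℕ) (c : List (Cf N)) (ω : Cf N) (p : ℤ) : Bool := by
  classical exact decide (near J c (p - (p + ω.2.1) % RR J ω.1) (16 * 3 ^ ω.1))

lemma fl_true (c : List (Cf N)) (ω : Cf N) (p : ℤ) :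
    fl J c ω p = true ↔ near J c (p - (p + ω.2.1) % RR J ω.1) (16 * 3 ^ ω.1) := by
  unfold fl
  exact @decide_eq_true_iff _ (Classical.propDecidable _)

/-- contribution of the new level -/
def Yc (J : ℕ) (x y z : ℤ) (c : List (Cf N)) (ω : Cf N) : ℤ :=
  Yv J ω.1 ω.2.1 ω.2.2 (fl J c ω x) (fl J c ω y) (fl J c ω z) x y z

/-- the new level is continuous -/
def Cc (J : ℕ) (x y z : ℤ) (c : List (Cf N)) (ω : Cf N) : Prop :=
  Ct J ω.1 ω.2.1 ω.2.2 (fl J c ω x) (fl J c ω y) (fl J c ω z) x y z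

/-- the second difference of the levels of `c` -/
def UU (J : ℕ) (x y z : ℤ) : List (Cf N) → ℤ
  | [] => 0
  | ω :: c => UU J x y z c + Yc J x y z c ω

/-- all levels are lattice and zero -/
def Zr (J : ℕ) (x y z : ℤ) : List (Cf N) → Prop
  | [] => True
  | ω :: c => Zr J x y z c ∧ (¬ Cc J x y z c ω ∧ Yc J x y z c ω = 0)

/-- the highest level which is not lattice-zero is continuous -/
def Kr (J : ℕ) (x y z : ℤ) : List (Cf N) → Prop
  | [] => False
  | ω :: c => Kr J x y z c ∨ (Zr J x y z c ∧ Cc J x y z c ω)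

lemma Zr_UU (x y z : ℤ) : ∀ c : List (Cf N), Zr J x y z c → UU J x y z c = 0
  | [], _ => rfl
  | ω :: c, h => by
    have h1 := Zr_UU x y z c h.1
    have h2 := h.2.2
    show UU J x y z c + Yc J x y z c ω = 0
    rw [h1, h2]; rfl

lemma Zr_not_Kr (x y z : ℤ) : ∀ c : List (Cf N), Zr J x y z c → ¬ Kr J x y z c
  | [], _ => fun h => h
  | ω :: c, h => by
    rintro (h1 | h1)
    · exact Zr_not_Kr x y z c h.1 h1
    · exact h.2.1 h1.2

lemma bb_succ (J l : ℕ) : bb J (l + 1) = 3 * bb J l := by unfold bb; rw [pow_succ]; ring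

/-- trichotomy -/
lemma trich (hJ : 16 ≤ J) (x y z : ℤ) (hxz : x + z = 2 * y) (t : ℕ) (ht : t ≤ J) :
    ∀ c : List (Cf N), Lv J t c → Zr J x y z c ∨ Kr J x y z c ∨
      bb J (J - t) ≤ |UU J x y z c| := by
  induction t with
  | zero =>
    intro c hc
    have : c = [] := hc
    subst this
    exact Or.inl trivial
  | succ t ih =>
    rintro _ ⟨ω, c, rfl, hω, hc⟩
    have hl : J - t = ω.1 + 1 := by omega
    have hl2 : J - (t + 1) = ω.1 := by omega
    rw [hl2]
    have hY : |Yc J x y z c ω| ≤ 2 * bb J ω.1 := Yv_bounds hJ _ _ _ _ _ _ _ _ _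
    rcases ih (by omega) c hc with h | h | h
    · by_cases hC : Cc J x y z c ω
      · exact Or.inr (Or.inl (Or.inr ⟨h, hC⟩))
      · by_cases hY0 : Yc J x y z c ω = 0
        · exact Or.inl ⟨h, hC, hY0⟩
        · right; right
          have hU : UU J x y z (ω :: c) = Yc J x y z c ω := by
            show UU J x y z c + Yc J x y z c ω = _
            rw [Zr_UU x y z c h]; ring
          rw [hU]
          rcases lattice hJ ω.1 ω.2.1 ω.2.2 _ _ _ x y z hxz hC with h1 | h1
          · have h2 : Yc J x y z c ω = bb J ω.1 * (bi (bit ω.2.2 ((x + ω.2.1) / RR J ω.1 + 1)) +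
              bi (bit ω.2.2 ((z + ω.2.1) / RR J ω.1 + 1)) -
              2 * bi (bit ω.2.2 ((y + ω.2.1) / RR J ω.1 + 1))) := h1
            rw [h2] at hY0 ⊢
            rw [abs_mul, abs_of_pos (bb_pos J ω.1 hJ)]
            have h3 := right_ne_zero_of_mul hY0
            have h4 := Int.one_le_abs h3
            have h5 := bb_pos J ω.1 hJ
            nlinarith
          · exact absurd h1.1 hY0
    · exact Or.inr (Or.inl (Or.inl h))
    · right; right
      rw [hl, bb_succ] at h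
      show bb J ω.1 ≤ |UU J x y z c + Yc J x y z c ω|
      have h1 := abs_sub_abs_le_abs_sub (UU J x y z c) (-Yc J x y z c ω)
      rw [abs_neg, sub_neg_eq_add] at h1
      linarith

/-- the final form -/
lemma small_cases (hJ : 16 ≤ J) (x y z : ℤ) (hxz : x + z = 2 * y) (c : List (Cf N))
    (hc : Lv J J c) (h : |UU J x y z c| < 16 * J) : Zr J x y z c ∨ Kr J x y z c := by
  rcases trich hJ x y z hxz J le_rfl c hc with h1 | h1 | h1
  · exact Or.inl h1
  · exact Or.inr h1
  · exfalso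
    rw [Nat.sub_self] at h1
    unfold bb at h1
    simp at h1
    linarith

end

end Pool.Agent.MTLS
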