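import Pool.Agent.MTLS.Conf

/-!
# Estimates for one level, the upper levels being fixed
-/

namespace Pool.Agent.MTLS

open Finset

noncomputable section

variable {N : ℕ} {J : ℕ}

/-- number of phases times number of bit strings -/
lemma av_le_of_phase (hJ : 16 ≤ J) (l : ℕ) (P : Cf N → Prop) (B : ℝ)
    (h : ∀ X : Fin N → Bool, ∀ T : Finset ℤ, T ⊆ Ico 0 (RR J l) →
      (∀ τ ∈ T, P (l, τ, X)) → (T.card : ℝ) ≤ B) :
    av J l (fun ω => ind (P ω)) ≤ B / RR J l := by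
  unfold av
  rw [Finset.sum_comm]
  have h1 : ∑ X : Fin N → Bool, ∑ τ ∈ Ico 0 (RR J l), ind (P (l, τ, X)) ≤
      ∑ _X : Fin N → Bool, B :=
    Finset.sum_le_sum fun X _ => sum_ind _ (fun τ => P (l, τ, X)) B (h X)
  rw [Finset.sum_const, card_univ, Fintype.card_fun, Fintype.card_bool, Fintype.card_fin,
    nsmul_eq_mul] at h1
  push_cast at h1
  have hR : (0 : ℝ) < RR J l := by exact_mod_cast RR_pos J l hJ
  rw [div_le_div_iff₀ (den_pos hJ l) hR]
  have h2 := mul_le_mul_of_nonneg_right h1 hR.le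
  linarith

lemma av_res (hJ : 16 ≤ J) (l : ℕ) (x g : ℤ) (hg : 0 ≤ g) :
    av (N := N) J l (fun ω => ind ((x + ω.2.1) % RR J l < g)) ≤ (g : ℝ) / RR J l := by
  refine av_le_of_phase hJ l _ _ fun X T hT h => ?_
  have := count_res (RR J l) x g hg T (fun τ hτ => ⟨mem_Ico.mp (hT hτ), h τ hτ⟩)
  exact_mod_cast this

/-- (E2) -/
lemma av_near (hJ : 16 ≤ J) (l : ℕ) (s w : ℤ) (hw : 0 < w) (hw2 : w ≤ 16 * 3 ^ l) :
    av (N := N) J l (fun ω => ind (∃ u, s ≤ u ∧ u < s + w ∧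
      (u + ω.2.1) % RR J l < 16 * 3 ^ l)) ≤ 32 / (J * ((l + 13) * (l + 14))) := by
  have h := av_le_of_phase (N := N) hJ l (fun ω => ∃ u, s ≤ u ∧ u < s + w ∧
      (u + ω.2.1) % RR J l < 16 * 3 ^ l) (32 * 3 ^ l) (fun X T hT h => by
    have := count_near (RR J l) s (16 * 3 ^ l) w (by positivity) hw T
      (fun τ hτ => ⟨mem_Ico.mp (hT hτ), h τ hτ⟩)
    have h2 : (T.card : ℤ) ≤ 32 * 3 ^ l := by linarith
    exact_mod_cast h2)
  refine h.trans (le_of_eq ?_)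
  unfold RR
  push_cast
  have : (0 : ℝ) < J := by
    have : 0 < J := by omega
    exact_mod_cast this
  field_simp

/-- the eight choices of modes -/
lemma flags_le (P : Bool → Bool → Bool → Prop) (a b c : Bool) :
    ind (P a b c) ≤ ∑ φ : Bool × Bool × Bool, ind (P φ.1 φ.2.1 φ.2.2) :=
  Finset.single_le_sum (f := fun φ : Bool × Bool × Bool => ind (P φ.1 φ.2.1 φ.2.2))
    (fun _ _ => ind_nonneg _) (mem_univ (a, b, c))

/-- (E3) -/
lemma av_cont (hJ : 16 ≤ J) (l : ℕ) (x y z : ℤ) (c : List (Cf N)) (v : ℤ) :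
    av J l (fun ω => ind (Cc J x y z c ω ∧ v ≤ Yc J x y z c ω ∧ Yc J x y z c ω < v + 8 * J)) ≤
      32768 * J / RR J l := by
  have h1 : av J l (fun ω => ind (Cc J x y z c ω ∧ v ≤ Yc J x y z c ω ∧
      Yc J x y z c ω < v + 8 * J)) ≤ av J l (fun ω : Cf N => ∑ φ : Bool × Bool × Bool,
      ind (Ct J ω.1 ω.2.1 ω.2.2 φ.1 φ.2.1 φ.2.2 x y z ∧
        v ≤ Yv J ω.1 ω.2.1 ω.2.2 φ.1 φ.2.1 φ.2.2 x y z ∧
        Yv J ω.1 ω.2.1 ω.2.2 φ.1 φ.2.1 φ.2.2 x y z < v + 8 * J)) := by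
    refine av_mono hJ l fun τ X _ _ => ?_
    exact flags_le (fun a b d => Ct J l τ X a b d x y z ∧ v ≤ Yv J l τ X a b d x y z ∧
      Yv J l τ X a b d x y z < v + 8 * J) _ _ _
  refine h1.trans ?_
  rw [av_sum]
  have h2 : ∀ φ ∈ (univ : Finset (Bool × Bool × Bool)), av J l (fun ω : Cf N =>
      ind (Ct J ω.1 ω.2.1 ω.2.2 φ.1 φ.2.1 φ.2.2 x y z ∧
        v ≤ Yv J ω.1 ω.2.1 ω.2.2 φ.1 φ.2.1 φ.2.2 x y z ∧
        Yv J ω.1 ω.2.1 ω.2.2 φ.1 φ.2.1 φ.2.2 x y z < v + 8 * J)) ≤ (4096 * J) / RR J l := by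
    intro φ _
    refine av_le_of_phase hJ l _ _ fun X T hT h => ?_
    have := count_slow J l hJ X φ.1 φ.2.1 φ.2.2 x y z v T (fun τ hτ =>
      ⟨mem_Ico.mp (hT hτ), (h τ hτ).1, (h τ hτ).2⟩)
    exact_mod_cast this
  refine (Finset.sum_le_sum h2).trans (le_of_eq ?_)
  rw [Finset.sum_const, card_univ, Fintype.card_prod, Fintype.card_prod, Fintype.card_bool,
    nsmul_eq_mul]
  push_cast
  ring

/-- all speeds of the new level are fast -/
def Fc (J : ℕ) (x y z : ℤ) (c : List (Cf N)) (ω : Cf N) : Prop :=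
  SpF J (kf J ω.1 ω.2.1 ω.2.2 (fl J c ω x) x).2 ∧ SpF J (kf J ω.1 ω.2.1 ω.2.2 (fl J c ω y) y).2 ∧
    SpF J (kf J ω.1 ω.2.1 ω.2.2 (fl J c ω z) z).2

/-- (E4) -/
lemma av_fast (hJ : 16 ≤ J) (l : ℕ) (x y z : ℤ) (c : List (Cf N)) (v : ℤ) :
    av J l (fun ω => ind (Cc J x y z c ω ∧ Fc J x y z c ω ∧ v ≤ Yc J x y z c ω ∧
      Yc J x y z c ω < v + 8 * J)) ≤ 32768 / RR J l := by
  have h1 : av J l (fun ω => ind (Cc J x y z c ω ∧ Fc J x y z c ω ∧ v ≤ Yc J x y z c ω ∧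
      Yc J x y z c ω < v + 8 * J)) ≤ av J l (fun ω : Cf N => ∑ φ : Bool × Bool × Bool,
      ind (Ct J ω.1 ω.2.1 ω.2.2 φ.1 φ.2.1 φ.2.2 x y z ∧
        (SpF J (kf J ω.1 ω.2.1 ω.2.2 φ.1 x).2 ∧ SpF J (kf J ω.1 ω.2.1 ω.2.2 φ.2.1 y).2 ∧
          SpF J (kf J ω.1 ω.2.1 ω.2.2 φ.2.2 z).2) ∧
        v ≤ Yv J ω.1 ω.2.1 ω.2.2 φ.1 φ.2.1 φ.2.2 x y z ∧
        Yv J ω.1 ω.2.1 ω.2.2 φ.1 φ.2.1 φ.2.2 x y z < v + 8 * J)) := by
    refine av_mono hJ l fun τ X _ _ => ?_
    exact flags_le (fun a b d => Ct J l τ X a b d x y z ∧ (SpF J (kf J l τ X a x).2 ∧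
      SpF J (kf J l τ X b y).2 ∧ SpF J (kf J l τ X d z).2) ∧ v ≤ Yv J l τ X a b d x y z ∧
      Yv J l τ X a b d x y z < v + 8 * J) _ _ _
  refine h1.trans ?_
  rw [av_sum]
  have h2 : ∀ φ ∈ (univ : Finset (Bool × Bool × Bool)), av J l (fun ω : Cf N =>
      ind (Ct J ω.1 ω.2.1 ω.2.2 φ.1 φ.2.1 φ.2.2 x y z ∧
        (SpF J (kf J ω.1 ω.2.1 ω.2.2 φ.1 x).2 ∧ SpF J (kf J ω.1 ω.2.1 ω.2.2 φ.2.1 y).2 ∧
          SpF J (kf J ω.1 ω.2.1 ω.2.2 φ.2.2 z).2) ∧
        v ≤ Yv J ω.1 ω.2.1 ω.2.2 φ.1 φ.2.1 φ.2.2 x y z ∧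
        Yv J ω.1 ω.2.1 ω.2.2 φ.1 φ.2.1 φ.2.2 x y z < v + 8 * J)) ≤ 4096 / RR J l := by
    intro φ _
    refine av_le_of_phase hJ l _ _ fun X T hT h => ?_
    have := count_fast J l hJ X φ.1 φ.2.1 φ.2.2 x y z v T (fun τ hτ =>
      ⟨mem_Ico.mp (hT hτ), (h τ hτ).1, (h τ hτ).2.1, (h τ hτ).2.2⟩)
    exact_mod_cast this
  refine (Finset.sum_le_sum h2).trans (le_of_eq ?_)
  rw [Finset.sum_const, card_univ, Fintype.card_prod, Fintype.card_prod, Fintype.card_bool,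
    nsmul_eq_mul]
  push_cast
  ring

/-- the factor of a separated level -/
def lam (J : ℕ) (k : ℤ) (l : ℕ) : ℝ := by
  classical exact if RR J l ≤ k then 1 / 4 + 16 / ((l + 13) * (l + 14)) else 1

lemma lam_ge (J : ℕ) (k : ℤ) (l : ℕ) : 1 / 4 ≤ lam J k l := by
  unfold lam
  split_ifs
  · have : (0 : ℝ) ≤ 16 / ((l + 13) * (l + 14)) := by positivity
    linarith
  · norm_num

lemma bb_div_RR (hJ : 16 ≤ J) (l : ℕ) :
    (bb J l : ℝ) / RR J l = 16 / ((l + 13) * (l + 14)) := by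
  unfold bb RR
  push_cast
  have : (0 : ℝ) < J := by
    have : 0 < J := by omega
    exact_mod_cast this
  field_simp

/-- (E1) -/
lemma av_LZ (hJ : 16 ≤ J) (l : ℕ) (m k n : ℤ) (hx : 0 ≤ m - k) (hz : m + k ≤ n)
    (hn : n + 2 < N) (c : List (Cf N)) :
    av J l (fun ω => ind (¬ Cc J (m - k) m (m + k) c ω ∧ Yc J (m - k) m (m + k) c ω = 0)) ≤
      lam J k l := by
  unfold lam
  split_ifs with hR
  · have hRp := RR_pos J l hJ
    have hb := bb_pos J l hJ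
    have h1 : av J l (fun ω => ind (¬ Cc J (m - k) m (m + k) c ω ∧
        Yc J (m - k) m (m + k) c ω = 0)) ≤ av J l (fun ω : Cf N =>
        ind (bit ω.2.2 ((m - k + ω.2.1) / RR J l + 1) = bit ω.2.2 ((m + ω.2.1) / RR J l + 1) ∧
          bit ω.2.2 ((m + ω.2.1) / RR J l + 1) = bit ω.2.2 ((m + k + ω.2.1) / RR J l + 1)) +
        ind ((m - k + ω.2.1) % RR J l < bb J l)) := by
      refine av_mono hJ l fun τ X _ _ => ?_
      refine (ind_mono ?_).trans (ind_or _ _)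
      rintro ⟨hC, hY⟩
      rcases lattice hJ l τ X _ _ _ (m - k) m (m + k) (by ring) hC with h | h
      · left
        have h2 : Yc J (m - k) m (m + k) c (l, τ, X) = bb J l *
          (bi (bit X ((m - k + τ) / RR J l + 1)) + bi (bit X ((m + k + τ) / RR J l + 1)) -
            2 * bi (bit X ((m + τ) / RR J l + 1))) := h
        rw [h2] at hY
        have h3 := (mul_eq_zero.mp hY).resolve_left hb.ne'
        simp only
        revert h3
        unfold bi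
        cases bit X ((m - k + τ) / RR J l + 1) <;> cases bit X ((m + τ) / RR J l + 1) <;>
          cases bit X ((m + k + τ) / RR J l + 1) <;> simp
      · exact Or.inr h.2
    refine h1.trans ?_
    rw [av_add]
    have h2 := av_res (N := N) hJ l (m - k) (bb J l) hb.le
    rw [bb_div_RR hJ] at h2
    have h3 : av J l (fun ω : Cf N =>
        ind (bit ω.2.2 ((m - k + ω.2.1) / RR J l + 1) = bit ω.2.2 ((m + ω.2.1) / RR J l + 1) ∧
          bit ω.2.2 ((m + ω.2.1) / RR J l + 1) =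
            bit ω.2.2 ((m + k + ω.2.1) / RR J l + 1))) ≤ 1 / 4 := by
      unfold av
      have h4 : ∀ τ ∈ Ico 0 (RR J l), ∑ X : Fin N → Bool,
          ind (bit X ((m - k + τ) / RR J l + 1) = bit X ((m + τ) / RR J l + 1) ∧
          bit X ((m + τ) / RR J l + 1) = bit X ((m + k + τ) / RR J l + 1)) ≤ 2 ^ N / 4 := by
        intro τ hτ
        rw [mem_Ico] at hτ
        refine sum_ind _ _ _ fun T _ hT => ?_
        have q1 : (m - k + τ) / RR J l + 1 ≤ (m + τ) / RR J l := by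
          have : (m - k + τ) / RR J l + 1 = (m - k + τ + RR J l) / RR J l := by
            rw [Int.add_ediv_of_dvd_right (dvd_refl _), Int.ediv_self hRp.ne']
          rw [this]
          exact Int.ediv_le_ediv hRp (by linarith)
        have q2 : (m + τ) / RR J l + 1 ≤ (m + k + τ) / RR J l := by
          have : (m + τ) / RR J l + 1 = (m + τ + RR J l) / RR J l := by
            rw [Int.add_ediv_of_dvd_right (dvd_refl _), Int.ediv_self hRp.ne']
          rw [this]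
          exact Int.ediv_le_ediv hRp (by linarith)
        have q0 : 0 ≤ (m - k + τ) / RR J l := Int.ediv_nonneg (by linarith) hRp.le
        have q3 : (m + k + τ) / RR J l ≤ n + 1 := by
          have a1 : (m + k + τ) / RR J l ≤ (n + RR J l) / RR J l :=
            Int.ediv_le_ediv hRp (by linarith)
          rw [Int.add_ediv_of_dvd_right (dvd_refl _), Int.ediv_self hRp.ne'] at a1
          have a2 : n / RR J l ≤ n := Int.ediv_le_self _ (by linarith)
          linarith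
        have := bits_count (N := N) ((m - k + τ) / RR J l + 1) ((m + τ) / RR J l + 1)
          ((m + k + τ) / RR J l + 1) (by linarith) (by linarith) (by linarith) (by linarith) T hT
        have h5 : (4 : ℝ) * T.card ≤ 2 ^ N := by exact_mod_cast this
        linarith
      have h6 := Finset.sum_le_sum h4
      rw [Finset.sum_const, Int.card_Ico, nsmul_eq_mul] at h6
      have hc : (((RR J l - 0).toNat : ℕ) : ℝ) = (RR J l : ℝ) := by
        have : ((RR J l - 0).toNat : ℤ) = RR J l := by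
          rw [Int.toNat_of_nonneg (by linarith)]; ring
        exact_mod_cast this
      rw [hc] at h6
      rw [div_le_iff₀ (den_pos hJ l)]
      linarith
    linarith
  · have h := av_mono (J := J) (N := N) hJ l (Φ := fun ω => ind (¬ Cc J (m - k) m (m + k) c ω ∧
      Yc J (m - k) m (m + k) c ω = 0)) (Ψ := fun _ => (1 : ℝ))
      (fun _ _ _ _ => ind_le_one _)
    rwa [av_const hJ] at h

end

end Pool.Agent.MTLS
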