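import Pool.Agent.MTLS.Path

/-!
# Summation and the sharp upper bound `C n log n`
-/

namespace Pool.Agent.MTLS

open Finset Pool.Agent.MTL

noncomputable section

/-- product of the factors `1/4` of the separated levels -/
def ah (J : ℕ) (k : ℤ) : ℕ → ℝ
  | 0 => 1
  | t + 1 => (if RR J (J - 1 - t) ≤ k then 1 / 4 else 1) * ah J k t

/-- the density sum -/
def bh (J : ℕ) (k : ℤ) : ℕ → ℝ
  | 0 => 0
  | t + 1 => bh J k t + ah J k t / RR J (J - 1 - t)

lemma ah_pos (J : ℕ) (k : ℤ) (t : ℕ) : 0 < ah J k t := by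
  induction t with
  | zero => exact one_pos
  | succ t ih =>
    unfold ah
    refine mul_pos ?_ ih
    split_ifs <;> norm_num

lemma ah_le_one (J : ℕ) (k : ℤ) (t : ℕ) : ah J k t ≤ 1 := by
  induction t with
  | zero => exact le_rfl
  | succ t ih =>
    unfold ah
    have h := ah_pos J k t
    split_ifs
    · linarith
    · linarith

lemma exp_step (c a : ℝ) (ha : 0 ≤ a) :
    (1 + c / ((a + 13) * (a + 14))) * Real.exp (c / (a + 1 + 13)) ≤ Real.exp (c / (a + 13)) := by
  have e : c / (a + 13) = c / ((a + 13) * (a + 14)) + c / (a + 1 + 13) := by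
    field_simp; ring
  rw [e, Real.exp_add]
  refine mul_le_mul_of_nonneg_right ?_ (Real.exp_pos _).le
  have := Real.add_one_le_exp (c / ((a + 13) * (a + 14)))
  linarith

lemma exp_step' (c a : ℝ) (hc : 0 ≤ c) (ha : 0 ≤ a) :
    Real.exp (c / (a + 1 + 13)) ≤ Real.exp (c / (a + 13)) := by
  apply Real.exp_le_exp.mpr
  apply div_le_div_of_nonneg_left hc (by linarith) (by linarith)

lemma alpha_le (J : ℕ) (k : ℤ) (t : ℕ) (ht : t ≤ J) :
    alpha J k t ≤ Real.exp (64 / ((J - t : ℕ) + 13)) * ah J k t := by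
  induction t with
  | zero =>
    unfold alpha ah
    rw [mul_one]
    exact Real.one_le_exp (by positivity)
  | succ t ih =>
    have h1 := ih (by omega)
    have e1 : (J - t : ℕ) = (J - 1 - t : ℕ) + 1 := by omega
    have e2 : J - (t + 1) = J - 1 - t := by omega
    rw [e1] at h1
    rw [e2]
    push_cast at h1
    have ha := ah_pos J k t
    have hl := lam_ge J k (J - 1 - t)
    set a : ℝ := ((J - 1 - t : ℕ) : ℝ) with hadef
    have ha0 : 0 ≤ a := Nat.cast_nonneg _
    show lam J k (J - 1 - t) * alpha J k t ≤ Real.exp (64 / (a + 13)) *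
      ((if RR J (J - 1 - t) ≤ k then 1 / 4 else 1) * ah J k t)
    have h2 : lam J k (J - 1 - t) * alpha J k t ≤
        lam J k (J - 1 - t) * (Real.exp (64 / (a + 1 + 13)) * ah J k t) :=
      mul_le_mul_of_nonneg_left h1 (by linarith)
    refine h2.trans ?_
    unfold lam
    by_cases hR : RR J (J - 1 - t) ≤ k
    · rw [if_pos hR, if_pos hR]
      have h3 := exp_step 64 a ha0
      have h4 : (1 / 4 + 16 / ((a + 13) * (a + 14))) * (Real.exp (64 / (a + 1 + 13)) *
          ah J k t) = ((1 + 64 / ((a + 13) * (a + 14))) * Real.exp (64 / (a + 1 + 13))) *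
          (1 / 4 * ah J k t) := by ring
      rw [← hadef, h4]
      exact mul_le_mul_of_nonneg_right h3 (by positivity)
    · rw [if_neg hR, if_neg hR, one_mul, one_mul]
      exact mul_le_mul_of_nonneg_right (exp_step' 64 a (by norm_num) ha0) ha.le

lemma bh_nonneg {J : ℕ} (hJ : 16 ≤ J) (k : ℤ) (t : ℕ) : 0 ≤ bh J k t := by
  induction t with
  | zero => exact le_rfl
  | succ t ih =>
    unfold bh
    have h1 := ah_pos J k t
    have h2 : (0 : ℝ) < RR J (J - 1 - t) := by exact_mod_cast RR_pos J _ hJ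
    positivity

/-- the constant of the density bound -/
def KB : ℝ := 1212416 * Real.exp 64

lemma beta_le {J : ℕ} (hJ : 16 ≤ J) (k : ℤ) (t : ℕ) (ht : t ≤ J) :
    beta J k t ≤ Real.exp (294928 / ((J - t : ℕ) + 13)) * (KB * bh J k t) := by
  have hKB : 0 < KB := by unfold KB; positivity
  induction t with
  | zero =>
    unfold beta bh
    simp
  | succ t ih =>
    have h1 := ih (by omega)
    have hal := alpha_le J k t (by omega)
    have e1 : (J - t : ℕ) = (J - 1 - t : ℕ) + 1 := by omega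
    have e2 : J - (t + 1) = J - 1 - t := by omega
    rw [e1] at h1 hal
    rw [e2]
    push_cast at h1 hal
    have ha := ah_pos J k t
    have hb := bh_nonneg hJ k t
    have hRp : (0 : ℝ) < RR J (J - 1 - t) := by exact_mod_cast RR_pos J _ hJ
    set a : ℝ := ((J - 1 - t : ℕ) : ℝ) with hadef
    have ha0 : 0 ≤ a := Nat.cast_nonneg _
    show beta J k t * (1 + 294928 / ((a + 13) * (a + 14))) +
      1212416 * alpha J k t / RR J (J - 1 - t) ≤ Real.exp (294928 / (a + 13)) *
        (KB * (bh J k t + ah J k t / RR J (J - 1 - t)))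
    have h2 : beta J k t * (1 + 294928 / ((a + 13) * (a + 14))) ≤
        Real.exp (294928 / (a + 13)) * (KB * bh J k t) := by
      have h3 := mul_le_mul_of_nonneg_right h1
        (by positivity : 0 ≤ 1 + 294928 / ((a + 13) * (a + 14)))
      have h4 := exp_step 294928 a ha0
      have h5 := mul_le_mul_of_nonneg_right h4 (mul_nonneg hKB.le hb)
      linarith
    have h6 : 1212416 * alpha J k t / RR J (J - 1 - t) ≤
        Real.exp (294928 / (a + 13)) * (KB * (ah J k t / RR J (J - 1 - t))) := by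
      have h7 : alpha J k t ≤ Real.exp 64 * ah J k t := by
        refine hal.trans (mul_le_mul_of_nonneg_right ?_ ha.le)
        apply Real.exp_le_exp.mpr
        rw [div_le_iff₀ (by linarith)]
        linarith
      have h8 : 1212416 * alpha J k t / RR J (J - 1 - t) ≤
          KB * (ah J k t / RR J (J - 1 - t)) := by
        have e : KB * (ah J k t / RR J (J - 1 - t)) =
          1212416 * (Real.exp 64 * ah J k t) / RR J (J - 1 - t) := by
          unfold KB; ring
        rw [e]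
        exact div_le_div_of_nonneg_right (by linarith) hRp.le
      have h9 : 1 ≤ Real.exp (294928 / (a + 13)) := Real.one_le_exp (by positivity)
      have h10 : 0 ≤ KB * (ah J k t / RR J (J - 1 - t)) := by positivity
      have := mul_le_mul_of_nonneg_right h9 h10
      linarith
    linarith

lemma RR_ratio (J l : ℕ) : 2 * RR J (l + 1) ≤ 7 * RR J l := by
  unfold RR
  push_cast
  rw [pow_succ]
  have h1 : (0 : ℤ) ≤ J * (l + 14) * 3 ^ l := by positivity
  have h2 : (6 : ℤ) * (l + 15) ≤ 7 * (l + 13) := by linarith [Int.natCast_nonneg l]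
  have h3 := mul_le_mul_of_nonneg_left h2 h1
  linarith

lemma RR_ge (J l : ℕ) (hJ : 16 ≤ J) : (3 : ℤ) * 3 ^ l ≤ RR J l := by
  unfold RR
  have h1 : (16 : ℤ) ≤ J := by exact_mod_cast hJ
  have h0 : (0 : ℤ) ≤ l := Int.natCast_nonneg l
  have h2 : (1 : ℤ) ≤ (l + 13) * (l + 14) := by nlinarith
  have h3 : (3 : ℤ) ≤ J * ((l + 13) * (l + 14)) := by
    have := mul_le_mul_of_nonneg_left h2 (by linarith : (0 : ℤ) ≤ J)
    linarith
  have h4 : (0 : ℤ) ≤ 3 ^ l := by positivity
  exact mul_le_mul_of_nonneg_right h3 h4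

lemma sum_ah {J : ℕ} (hJ : 16 ≤ J) (n : ℕ) (t : ℕ) (ht : t ≤ J) :
    ∑ k ∈ Icc (1 : ℤ) n, ah J k t ≤ 8 * RR J (J - t) + n * (1 / 4 : ℝ) ^ t := by
  have hR : ∀ l, (0 : ℝ) < RR J l := fun l => by exact_mod_cast RR_pos J l hJ
  induction t with
  | zero =>
    unfold ah
    rw [Finset.sum_const, Int.card_Icc, nsmul_eq_mul]
    have : ((n : ℤ) + 1 - 1).toNat = n := by omega
    rw [this]
    have h5 := hR (J - 0)
    rw [pow_zero, mul_one]
    linarith
  | succ t ih =>
    have h1 := ih (by omega)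
    have e1 : (J - t : ℕ) = (J - 1 - t) + 1 := by omega
    have e2 : J - (t + 1) = J - 1 - t := by omega
    rw [e1] at h1
    rw [e2]
    set l := J - 1 - t with hl
    have h2 : ∀ k ∈ Icc (1 : ℤ) n, ah J k (t + 1) ≤ 1 / 4 * ah J k t + ind (k < RR J l) := by
      intro k _
      have ha := ah_pos J k t
      have ha1 := ah_le_one J k t
      show (if RR J l ≤ k then 1 / 4 else 1) * ah J k t ≤ _
      by_cases hk : RR J l ≤ k
      · rw [if_pos hk, ind_false (not_lt.mpr hk)]; linarith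
      · rw [if_neg hk, ind_true (not_le.mp hk)]; linarith
    have h3 := Finset.sum_le_sum h2
    rw [Finset.sum_add_distrib, ← Finset.mul_sum] at h3
    have h4 : ∑ k ∈ Icc (1 : ℤ) n, ind (k < RR J l) ≤ RR J l := by
      refine sum_ind _ _ _ fun T hT h => ?_
      have hsub : T ⊆ Ico 0 (RR J l) := by
        intro k hk
        rw [mem_Ico]
        have := mem_Icc.mp (hT hk)
        exact ⟨by linarith [this.1], h k hk⟩
      have h5 := card_le_card hsub
      rw [Int.card_Ico] at h5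
      have h6 : (T.card : ℤ) ≤ RR J l := by
        have := RR_pos J l hJ
        omega
      exact_mod_cast h6
    have h7 : 2 * (RR J (l + 1) : ℝ) ≤ 7 * RR J l := by exact_mod_cast RR_ratio J l
    rw [pow_succ]
    linarith

lemma sum_bh {J : ℕ} (hJ : 16 ≤ J) (n : ℕ) (hn : n ≤ 3 ^ J) (t : ℕ) (ht : t ≤ J) :
    ∑ k ∈ Icc (1 : ℤ) n, bh J k t ≤ 29 * t := by
  have hR : ∀ l, (0 : ℝ) < RR J l := fun l => by exact_mod_cast RR_pos J l hJ
  induction t with
  | zero => unfold bh; simp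
  | succ t ih =>
    have h1 := ih (by omega)
    have h2 := sum_ah hJ n t (by omega)
    have e1 : (J - t : ℕ) = (J - 1 - t) + 1 := by omega
    rw [e1] at h2
    unfold bh
    set l := J - 1 - t with hl
    rw [Finset.sum_add_distrib, ← Finset.sum_div]
    have h3 : (∑ k ∈ Icc (1 : ℤ) n, ah J k t) / RR J l ≤ 29 := by
      rw [div_le_iff₀ (hR l)]
      have h7 : 2 * (RR J (l + 1) : ℝ) ≤ 7 * RR J l := by exact_mod_cast RR_ratio J l
      have h8 : (n : ℝ) * (1 / 4 : ℝ) ^ t ≤ RR J l := by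
        have h9 : (n : ℝ) ≤ 3 ^ J := by exact_mod_cast hn
        have h10 : (3 : ℝ) ^ J * (1 / 4) ^ t ≤ 3 * 3 ^ l := by
          have e3 : J = t + (l + 1) := by omega
          rw [e3, pow_add, pow_succ]
          have h11 : (3 : ℝ) ^ t * (1 / 4) ^ t ≤ 1 := by
            rw [← mul_pow]
            exact pow_le_one₀ (by norm_num) (by norm_num)
          have h12 : (0 : ℝ) ≤ 3 ^ l * 3 := by positivity
          have := mul_le_mul_of_nonneg_right h11 h12
          linarith
        have h13 : (3 : ℝ) * 3 ^ l ≤ RR J l := by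
          have h14 : (3 : ℤ) * 3 ^ l ≤ RR J l := RR_ge J l hJ
          exact_mod_cast h14
        have h16 : (n : ℝ) * (1 / 4 : ℝ) ^ t ≤ 3 ^ J * (1 / 4) ^ t :=
          mul_le_mul_of_nonneg_right h9 (by positivity)
        linarith
      linarith
    push_cast
    linarith

/-- the final constant -/
def KF : ℝ := Real.exp 64 + 4 * (Real.exp 294928 * KB)

lemma total_le {J : ℕ} (hJ : 16 ≤ J) (k : ℤ) :
    alpha J k J + 4 * beta J k J ≤ KF * (ah J k J + bh J k J) := by
  have ha := ah_pos J k J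
  have hb := bh_nonneg hJ k J
  have hKB : 0 < KB := by unfold KB; positivity
  have h1 := alpha_le J k J le_rfl
  have h2 := beta_le hJ k J le_rfl
  rw [Nat.sub_self] at h1 h2
  push_cast at h1 h2
  have h3 : Real.exp (64 / (0 + 13)) ≤ Real.exp 64 := Real.exp_le_exp.mpr (by norm_num)
  have h4 : Real.exp (294928 / (0 + 13)) ≤ Real.exp 294928 := Real.exp_le_exp.mpr (by norm_num)
  have h5 := mul_le_mul_of_nonneg_right h3 ha.le
  have h6 := mul_le_mul_of_nonneg_right h4 (mul_nonneg hKB.le hb)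
  have h7 : 0 ≤ Real.exp 64 * bh J k J := mul_nonneg (Real.exp_pos _).le hb
  have h8 : 0 ≤ 4 * (Real.exp 294928 * KB) * ah J k J := by positivity
  unfold KF
  linarith

lemma ind_eq (P : Prop) [Decidable P] : ind P = if P then 1 else 0 := by
  by_cases h : P
  · rw [ind_true h, if_pos h]
  · rw [ind_false h, if_neg h]

lemma card_ZZ_ind (S : ℤ → ℤ) (n : ℕ) : ((ZZ S n).card : ℝ) =
    ∑ p ∈ ((Icc (0 : ℤ) n) ×ˢ (Icc (1 : ℤ) n)).filter
      (fun p : ℤ × ℤ => p.2 ≤ p.1 ∧ p.1 + p.2 ≤ (n : ℤ)), ind (ddZ S p.1 p.2 = 0) := by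
  have h3 : ZZ S n = (((Icc (0 : ℤ) n) ×ˢ (Icc (1 : ℤ) n)).filter
      (fun p : ℤ × ℤ => p.2 ≤ p.1 ∧ p.1 + p.2 ≤ (n : ℤ))).filter
        (fun p => ddZ S p.1 p.2 = 0) := by
    rw [Finset.filter_filter]
    unfold ZZ
    refine Finset.filter_congr fun p _ => ?_
    tauto
  rw [h3, Finset.card_filter]
  push_cast
  refine Finset.sum_congr rfl fun p _ => ?_
  rw [ind_eq]

/-- the sharp upper bound -/
theorem upper_sharp : ∃ C : ℝ, 0 < C ∧ ∀ n : ℕ, 4 ≤ n → ∃ S : ℤ → ℤ, Steps S ∧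
    ((ZZ S n).card : ℝ) ≤ C * n * Real.log n := by
  have hKF : 0 < KF := by unfold KF KB; positivity
  refine ⟨2 * KF * 1486 * 17, by positivity, fun n hn => ?_⟩
  have hnr : (4 : ℝ) ≤ n := by exact_mod_cast hn
  set J := Nat.log 3 n + 16 with hJdef
  have hJ : 16 ≤ J := by omega
  have hn3 : n ≤ 3 ^ J := by
    have h1 := Nat.lt_pow_succ_log_self (b := 3) (by norm_num) n
    have h2 : 3 ^ (Nat.log 3 n + 1) ≤ 3 ^ J := Nat.pow_le_pow_right (by norm_num) (by omega)
    exact h1.le.trans h2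
  set R : Finset (ℤ × ℤ) := ((Icc (0 : ℤ) n) ×ˢ (Icc (1 : ℤ) n)).filter
    (fun p => p.2 ≤ p.1 ∧ p.1 + p.2 ≤ n) with hR
  have hcard : ∀ S : ℤ → ℤ, ((ZZ S n).card : ℝ) = ∑ p ∈ R, ind (ddZ S p.1 p.2 = 0) :=
    fun S => card_ZZ_ind S n
  obtain ⟨c, hc, hle⟩ := EE_exists (N := n + 3) hJ J
    (fun c => ((ZZ (SS J c) n).card : ℝ))
  refine ⟨SS J c, SS_steps hJ c (Lv_length J J c hc).le, hle.trans ?_⟩
  simp only [hcard]
  rw [EE_sum]
  have h1 : ∀ p ∈ R, EE (N := n + 3) J J (fun c => ind (ddZ (SS J c) p.1 p.2 = 0)) ≤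
      KF * (ah J p.2 J + bh J p.2 J) := by
    rintro ⟨m, k⟩ hp
    rw [hR, mem_filter, mem_product, mem_Icc, mem_Icc] at hp
    obtain ⟨⟨⟨a1, a2⟩, ⟨a3, a4⟩⟩, a5, a6⟩ := hp
    simp only at a1 a2 a3 a4 a5 a6 ⊢
    exact (prob_zero (N := n + 3) hJ m k n (by linarith) a6 (by push_cast; linarith)).trans
      (total_le hJ k)
  refine (Finset.sum_le_sum h1).trans ?_
  have h2 : ∑ p ∈ R, KF * (ah J p.2 J + bh J p.2 J) ≤
      ∑ p ∈ (Icc (0 : ℤ) n) ×ˢ (Icc (1 : ℤ) n), KF * (ah J p.2 J + bh J p.2 J) := by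
    refine Finset.sum_le_sum_of_subset_of_nonneg (filter_subset _ _) fun p _ _ => ?_
    have := ah_pos J p.2 J
    have := bh_nonneg hJ p.2 J
    positivity
  refine h2.trans ?_
  rw [Finset.sum_product]
  simp only
  rw [Finset.sum_const, Int.card_Icc, nsmul_eq_mul, ← Finset.mul_sum, Finset.sum_add_distrib]
  have hc1 : ((((n : ℤ) + 1 - 0).toNat : ℕ) : ℝ) = n + 1 := by
    have : ((n : ℤ) + 1 - 0).toNat = n + 1 := by omega
    rw [this]; push_cast; ring
  rw [hc1]
  have s1 := sum_ah hJ n J le_rfl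
  have s2 := sum_bh hJ n hn3 J le_rfl
  rw [Nat.sub_self] at s1
  have hR0 : (RR J 0 : ℝ) = 182 * J := by
    unfold RR
    push_cast
    ring
  have hn4 : (n : ℝ) * (1 / 4) ^ J ≤ 1 := by
    have h9 : (n : ℝ) ≤ 3 ^ J := by exact_mod_cast hn3
    have h11 : (3 : ℝ) ^ J * (1 / 4) ^ J ≤ 1 := by
      rw [← mul_pow]
      exact pow_le_one₀ (by norm_num) (by norm_num)
    have h12 : (n : ℝ) * (1 / 4) ^ J ≤ 3 ^ J * (1 / 4) ^ J :=
      mul_le_mul_of_nonneg_right h9 (by positivity)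
    linarith
  rw [hR0] at s1
  have hJr : (16 : ℝ) ≤ J := by exact_mod_cast hJ
  have s3 : ∑ k ∈ Icc (1 : ℤ) n, ah J k J + ∑ k ∈ Icc (1 : ℤ) n, bh J k J ≤ 1486 * J := by
    linarith
  have hlog1 : 1 ≤ Real.log n := by
    have h10 : Real.log 4 ≤ Real.log n := Real.log_le_log (by norm_num) hnr
    have h11 : Real.log 4 = 2 * Real.log 2 := by
      rw [show (4 : ℝ) = 2 ^ 2 by norm_num, Real.log_pow]; norm_num
    have := Real.log_two_gt_d9
    linarith
  have hJle : (J : ℝ) ≤ 17 * Real.log n := by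
    have h12 : (3 : ℝ) ^ (Nat.log 3 n) ≤ n := by
      exact_mod_cast Nat.pow_log_le_self 3 (by omega)
    have h13 := Real.log_le_log (by positivity) h12
    rw [Real.log_pow] at h13
    have h14 : 1 ≤ Real.log 3 := by
      rw [Real.le_log_iff_exp_le (by norm_num)]
      have := Real.exp_one_lt_d9
      linarith
    have h15 : (0 : ℝ) ≤ Nat.log 3 n := Nat.cast_nonneg _
    have h16 : (Nat.log 3 n : ℝ) * 1 ≤ Nat.log 3 n * Real.log 3 :=
      mul_le_mul_of_nonneg_left h14 h15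
    rw [hJdef]
    push_cast
    linarith
  have s4 : (n + 1 : ℝ) * (KF * (∑ k ∈ Icc (1 : ℤ) n, ah J k J +
      ∑ k ∈ Icc (1 : ℤ) n, bh J k J)) ≤ (2 * n) * (KF * (1486 * (17 * Real.log n))) := by
    have h21 : KF * (∑ k ∈ Icc (1 : ℤ) n, ah J k J + ∑ k ∈ Icc (1 : ℤ) n, bh J k J) ≤
        KF * (1486 * (17 * Real.log n)) :=
      mul_le_mul_of_nonneg_left (by linarith) hKF.le
    have h22 : 0 ≤ KF * (1486 * (17 * Real.log n)) := by positivity
    have h23 : (n + 1 : ℝ) * (KF * (∑ k ∈ Icc (1 : ℤ) n, ah J k J +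
      ∑ k ∈ Icc (1 : ℤ) n, bh J k J)) ≤ (n + 1) * (KF * (1486 * (17 * Real.log n))) :=
      mul_le_mul_of_nonneg_left h21 (by linarith)
    have h24 : (n + 1 : ℝ) * (KF * (1486 * (17 * Real.log n))) ≤
        (2 * n) * (KF * (1486 * (17 * Real.log n))) :=
      mul_le_mul_of_nonneg_right (by linarith) h22
    linarith
  linarith

end

end Pool.Agent.MTLS
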