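import Pool.Agent.MTL.Lower

/-!
# The digit construction: one level

Everything is measured in units of `1/(8J)`.  A level has amplitude `b`, and in every block the
value moves from `b` times the previous bit to `b` times the present bit.
-/

namespace Pool.Agent.MTLS

open Finset

/-- base value and speed: `r` is the position inside the block, `s0`, `s1` the previous and the
present bit -/
def ker (J b : ℤ) (slow s0 s1 : Bool) (r : ℤ) : ℤ × ℤ :=
  if s0 = s1 then (if s1 then (b, 0) else (0, 0))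
  else if s1 then
    (if (if slow then 2 else 2 * J) * r < b then (0, if slow then 2 else 2 * J) else (b, 0))
  else
    (if (if slow then 1 else J) * r < b then (b, -(if slow then 1 else J)) else (0, 0))

/-- the value -/
def kv (J b : ℤ) (slow s0 s1 : Bool) (r : ℤ) : ℤ :=
  (ker J b slow s0 s1 r).1 + (ker J b slow s0 s1 r).2 * r

lemma ker_mem (J b : ℤ) (slow s0 s1 : Bool) (r : ℤ) :
    ker J b slow s0 s1 r = (0, 0) ∨ ker J b slow s0 s1 r = (b, 0) ∨
    ker J b slow s0 s1 r = (0, if slow then 2 else 2 * J) ∨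
    ker J b slow s0 s1 r = (b, -(if slow then 1 else J)) := by
  unfold ker
  split_ifs <;> simp_all

lemma kv_bounds (J b : ℤ) (hJ : 16 ≤ J) (hb : 0 < b) (slow s0 s1 : Bool) (r : ℤ) (hr : 0 ≤ r) :
    0 ≤ kv J b slow s0 s1 r ∧ kv J b slow s0 s1 r ≤ b := by
  have hJr : 0 ≤ J * r := by positivity
  unfold kv ker
  cases slow <;> cases s0 <;> cases s1 <;> simp <;> (try split_ifs) <;> (try simp) <;>
    (try constructor) <;> linarith

/-- moving implies that the position is early in the block -/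
lemma ker_moving (J b : ℤ) (hJ : 16 ≤ J) (slow s0 s1 : Bool) (r : ℤ) (hr : 0 ≤ r)
    (h : (ker J b slow s0 s1 r).2 ≠ 0) : r < b := by
  have hJr : r ≤ J * r := by nlinarith
  by_contra hcon
  have hbr : b ≤ r := not_lt.mp hcon
  apply h
  unfold ker
  cases slow <;> cases s0 <;> cases s1 <;> simp <;> (try split_ifs) <;> (try simp) <;>
    (exfalso; linarith)

/-- the start value -/
lemma ker_start (J b : ℤ) (hb : 0 < b) (slow s0 s1 : Bool) :
    kv J b slow s0 s1 0 = if s0 then b else 0 := by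
  unfold kv ker
  cases slow <;> cases s0 <;> cases s1 <;> simp [hb]

/-- the end value -/
lemma ker_end (J b : ℤ) (hJ : 16 ≤ J) (slow s0 s1 : Bool) (r : ℤ) (hr : b ≤ r) (hb : 0 < b) :
    kv J b slow s0 s1 r = if s1 then b else 0 := by
  have hJr : r ≤ J * r := by nlinarith
  unfold kv ker
  cases slow <;> cases s0 <;> cases s1 <;> simp <;> (try split_ifs) <;> (try simp) <;>
    (exfalso; linarith)

/-- one step, slow or fast -/
lemma ker_step (J b : ℤ) (hJ : 16 ≤ J) (slow s0 s1 : Bool) (r : ℤ) (hr : 0 ≤ r) :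
    |kv J b slow s0 s1 (r + 1) - kv J b slow s0 s1 r| ≤ 2 * J := by
  have hJr : r ≤ J * r := by nlinarith
  rw [abs_le]
  unfold kv ker
  cases slow <;> cases s0 <;> cases s1 <;> simp <;> (try split_ifs) <;> (try simp) <;>
    (try constructor) <;> nlinarith

lemma ker_step_slow (J b : ℤ) (s0 s1 : Bool) (r : ℤ) :
    |kv J b true s0 s1 (r + 1) - kv J b true s0 s1 r| ≤ 2 := by
  rw [abs_le]
  unfold kv ker
  cases s0 <;> cases s1 <;> simp <;> (try split_ifs) <;> simp <;>
    constructor <;> linarith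

lemma ker_step_late (J b g : ℤ) (hJ : 16 ≤ J) (slow s0 s1 : Bool) (r : ℤ) (hr : g ≤ r)
    (hg : 0 < g) (hbg : b ≤ J * g) (hs : slow = false) :
    kv J b slow s0 s1 (r + 1) = kv J b slow s0 s1 r := by
  have h1 : J * g ≤ J * r := by
    apply mul_le_mul_of_nonneg_left hr; linarith
  subst hs
  unfold kv ker
  cases s0 <;> cases s1 <;> simp <;> (try split_ifs) <;> simp <;> nlinarith

/-- the speeds -/
lemma speed_mem (J b : ℤ) (slow s0 s1 : Bool) (r : ℤ) :
    (ker J b slow s0 s1 r).2 = 0 ∨ (ker J b slow s0 s1 r).2 = 2 * J ∨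
    (ker J b slow s0 s1 r).2 = -J ∨ (ker J b slow s0 s1 r).2 = 2 ∨
    (ker J b slow s0 s1 r).2 = -1 := by
  unfold ker
  cases slow <;> cases s0 <;> cases s1 <;> simp <;> (try split_ifs) <;> simp

lemma speed_fast (J b : ℤ) (s0 s1 : Bool) (r : ℤ) :
    (ker J b false s0 s1 r).2 = 0 ∨ (ker J b false s0 s1 r).2 = 2 * J ∨
    (ker J b false s0 s1 r).2 = -J := by
  unfold ker
  cases s0 <;> cases s1 <;> simp <;> (try split_ifs) <;> simp

/-- a speed is one of five values -/
def Sp (J e : ℤ) : Prop := e = 0 ∨ e = 2 * J ∨ e = -J ∨ e = 2 ∨ e = -1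

/-- a fast speed -/
def SpF (J e : ℤ) : Prop := e = 0 ∨ e = 2 * J ∨ e = -J

lemma speeds_eq (J : ℤ) (hJ : 16 ≤ J) (ex ey ez : ℤ) (hx : Sp J ex) (hy : Sp J ey)
    (hz : Sp J ez) (h : ex + ez - 2 * ey = 0) : ex = ey ∧ ey = ez := by
  unfold Sp at hx hy hz
  rcases hx with rfl | rfl | rfl | rfl | rfl <;> rcases hy with rfl | rfl | rfl | rfl | rfl <;>
    rcases hz with rfl | rfl | rfl | rfl | rfl <;> omega

lemma speeds_fast (J : ℤ) (hJ : 16 ≤ J) (ex ey ez : ℤ) (hx : SpF J ex) (hy : SpF J ey)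
    (hz : SpF J ez) (h : ¬ (ex = ey ∧ ey = ez)) : J ≤ |ex + ez - 2 * ey| := by
  unfold SpF at hx hy hz
  rcases hx with rfl | rfl | rfl <;> rcases hy with rfl | rfl | rfl <;>
    rcases hz with rfl | rfl | rfl <;> rcases le_total 0 J with h0 | h0 <;>
    first
      | (exfalso; exact h ⟨rfl, rfl⟩)
      | (rw [le_abs]; omega)

end Pool.Agent.MTLS
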