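import Pool.Agent.MTLS.Kernel

/-!
# The digit construction: blocks, steps and counting of phases
-/

namespace Pool.Agent.MTLS

open Finset

/-- block length of level `l` -/
def RR (J l : ℕ) : ℤ := J * ((l + 13) * (l + 14)) * 3 ^ l

/-- amplitude of level `l` -/
def bb (J l : ℕ) : ℤ := 16 * J * 3 ^ l

lemma bb_pos (J l : ℕ) (hJ : 16 ≤ J) : 0 < bb J l := by
  unfold bb
  have : (0 : ℤ) < J := by omega
  positivity

lemma bb_RR (J l : ℕ) : 11 * bb J l ≤ RR J l := by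
  unfold bb RR
  have h1 : (0 : ℤ) ≤ J * 3 ^ l := by positivity
  have h2 : (176 : ℤ) ≤ (l + 13) * (l + 14) := by
    have : (0 : ℤ) ≤ l := by positivity
    nlinarith
  have h3 := mul_le_mul_of_nonneg_left h2 h1
  nlinarith

lemma RR_pos (J l : ℕ) (hJ : 16 ≤ J) : 0 < RR J l := by
  have h1 := bb_RR J l
  have h2 := bb_pos J l hJ
  linarith

/-- the bit of block `q` -/
def bit {N : ℕ} (X : Fin N → Bool) (q : ℤ) : Bool :=
  if h : q.toNat < N then X ⟨q.toNat, h⟩ else false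

/-- base value and speed at `p` -/
def kf {N : ℕ} (J l : ℕ) (τ : ℤ) (X : Fin N → Bool) (slow : Bool) (p : ℤ) : ℤ × ℤ :=
  ker J (bb J l) slow (bit X ((p + τ) / RR J l)) (bit X ((p + τ) / RR J l + 1))
    ((p + τ) % RR J l)

/-- value at `p` -/
def vf {N : ℕ} (J l : ℕ) (τ : ℤ) (X : Fin N → Bool) (slow : Bool) (p : ℤ) : ℤ :=
  kv J (bb J l) slow (bit X ((p + τ) / RR J l)) (bit X ((p + τ) / RR J l + 1))
    ((p + τ) % RR J l)

lemma vf_eq {N : ℕ} (J l : ℕ) (τ : ℤ) (X : Fin N → Bool) (slow : Bool) (p : ℤ) :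
    vf J l τ X slow p = (kf J l τ X slow p).1 + (kf J l τ X slow p).2 *
      (p + τ - RR J l * ((p + τ) / RR J l)) := by
  unfold vf kf kv
  rw [← Int.emod_def]

lemma vf_bounds {N : ℕ} (J l : ℕ) (hJ : 16 ≤ J) (τ : ℤ) (X : Fin N → Bool) (slow : Bool)
    (p : ℤ) : 0 ≤ vf J l τ X slow p ∧ vf J l τ X slow p ≤ bb J l :=
  kv_bounds _ _ (by exact_mod_cast hJ) (bb_pos J l hJ) _ _ _ _
    (Int.emod_nonneg _ (RR_pos J l hJ).ne')

lemma divmod_succ (R a : ℤ) (hR : 0 < R) :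
    (a % R + 1 < R ∧ (a + 1) / R = a / R ∧ (a + 1) % R = a % R + 1) ∨
    (a % R = R - 1 ∧ (a + 1) / R = a / R + 1 ∧ (a + 1) % R = 0) := by
  have h1 := Int.emod_nonneg a hR.ne'
  have h2 := Int.emod_lt_of_pos a hR
  have h3 := Int.mul_ediv_add_emod a R
  rcases lt_or_ge (a % R + 1) R with h | h
  · left
    have e : a + 1 = (a % R + 1) + R * (a / R) := by linarith
    refine ⟨h, ?_, ?_⟩
    · rw [e, Int.add_mul_ediv_left _ _ hR.ne', Int.ediv_eq_zero_of_lt (by linarith) h]; ring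
    · rw [e, Int.add_mul_emod_self_left, Int.emod_eq_of_lt (by linarith) h]
  · right
    have h4 : a % R = R - 1 := by linarith
    have e : a + 1 = R * (a / R + 1) := by linarith
    refine ⟨h4, ?_, ?_⟩
    · rw [e, Int.mul_ediv_cancel_left _ hR.ne']
    · rw [e, Int.mul_emod_right]

/-- one step of one level -/
lemma vf_step {N : ℕ} (J l : ℕ) (hJ : 16 ≤ J) (τ : ℤ) (X : Fin N → Bool) (sl sl' : Bool)
    (p : ℤ) (hsame : (p + τ) % RR J l + 1 < RR J l → sl' = sl) :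
    |vf J l τ X sl' (p + 1) - vf J l τ X sl p| ≤ 2 * J ∧
    (sl = true → |vf J l τ X sl' (p + 1) - vf J l τ X sl p| ≤ 2) ∧
    (sl = false → 16 * 3 ^ l ≤ (p + τ) % RR J l →
      |vf J l τ X sl' (p + 1) - vf J l τ X sl p| ≤ 2) := by
  have hR := RR_pos J l hJ
  have hb := bb_pos J l hJ
  have hJ' : (16 : ℤ) ≤ J := by exact_mod_cast hJ
  have hbR := bb_RR J l
  have hr0 := Int.emod_nonneg (p + τ) hR.ne'
  have e0 : p + 1 + τ = p + τ + 1 := by ring
  rcases divmod_succ (RR J l) (p + τ) hR with ⟨h1, h2, h3⟩ | ⟨h1, h2, h3⟩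
  · have hs := hsame h1
    subst hs
    unfold vf
    rw [e0, h2, h3]
    refine ⟨ker_step _ _ hJ' _ _ _ _ hr0, ?_, ?_⟩
    · intro hs
      subst hs
      exact ker_step_slow _ _ _ _ _
    · intro hs hg
      rw [ker_step_late J (bb J l) (16 * 3 ^ l) hJ' sl' _ _ _ hg (by positivity)
        (by unfold bb; linarith) hs]
      simp
  · have hz : vf J l τ X sl' (p + 1) - vf J l τ X sl p = 0 := by
      unfold vf
      rw [e0, h2, h3, ker_start _ _ hb, ker_end _ _ hJ' _ _ _ _ (by rw [h1]; linarith) hb]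
      ring
    rw [hz]
    simp

/-- integers with pairwise distance less than `c` -/
lemma card_le_of_close_int (T : Finset ℤ) (c : ℕ) (h : ∀ i ∈ T, ∀ j ∈ T, j < i + c) :
    T.card ≤ c := by
  by_cases hTe : T.Nonempty
  · obtain ⟨j0, hj0, hmin⟩ : ∃ j ∈ T, ∀ i ∈ T, j ≤ i :=
      ⟨T.min' hTe, T.min'_mem hTe, fun i hi => T.min'_le i hi⟩
    have hsub : T ⊆ Ico j0 (j0 + c) := by
      intro j hj
      rw [mem_Ico]
      exact ⟨hmin j hj, h j0 hj0 j hj⟩
    have h1 := card_le_card hsub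
    rw [Int.card_Ico] at h1
    omega
  · rw [Finset.not_nonempty_iff_eq_empty] at hTe
    rw [hTe]
    simp

/-- the contribution of one level to the second difference -/
def Yv {N : ℕ} (J l : ℕ) (τ : ℤ) (X : Fin N → Bool) (fx fy fz : Bool) (x y z : ℤ) : ℤ :=
  vf J l τ X fx x + vf J l τ X fz z - 2 * vf J l τ X fy y

/-- the three speeds are not all equal -/
def Ct {N : ℕ} (J l : ℕ) (τ : ℤ) (X : Fin N → Bool) (fx fy fz : Bool) (x y z : ℤ) : Prop :=
  ¬ ((kf J l τ X fx x).2 = (kf J l τ X fy y).2 ∧ (kf J l τ X fy y).2 = (kf J l τ X fz z).2)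

/-- the total speed -/
def Es {N : ℕ} (J l : ℕ) (τ : ℤ) (X : Fin N → Bool) (fx fy fz : Bool) (x y z : ℤ) : ℤ :=
  (kf J l τ X fx x).2 + (kf J l τ X fz z).2 - 2 * (kf J l τ X fy y).2

lemma div_range (R x τ : ℤ) (h0 : 0 ≤ τ) (h1 : τ < R) :
    (x + τ) / R = x / R ∨ (x + τ) / R = x / R + 1 := by
  have hR : 0 < R := by linarith
  have a1 : x / R ≤ (x + τ) / R := Int.ediv_le_ediv hR (by linarith)
  have a2 : (x + τ) / R ≤ (x + R) / R := Int.ediv_le_ediv hR (by linarith)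
  rw [Int.add_ediv_of_dvd_right (dvd_refl R), Int.ediv_self hR.ne'] at a2
  omega

/-- the number of phases with a given range of `Yv` -/
lemma count_class {N : ℕ} (J l : ℕ) (X : Fin N → Bool) (fx fy fz : Bool) (x y z v W D : ℤ)
    (M : ℕ) (hD : W ≤ D * M) (T : Finset ℤ)
    (hT : ∀ τ ∈ T, (0 ≤ τ ∧ τ < RR J l) ∧ D ≤ |Es J l τ X fx fy fz x y z| ∧
      v ≤ Yv J l τ X fx fy fz x y z ∧ Yv J l τ X fx fy fz x y z < v + W) :
    T.card ≤ M * 512 := by
  classical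
  set cl : Bool → ℤ → ℤ → (ℤ × ℤ) × ℤ := fun f p τ => (kf J l τ X f p, (p + τ) / RR J l)
    with hcl
  set S : Bool → ℤ → Finset ((ℤ × ℤ) × ℤ) := fun f p =>
    ({((0 : ℤ), (0 : ℤ)), (bb J l, 0), (0, if f then 2 else 2 * (J : ℤ)),
      (bb J l, -(if f then 1 else (J : ℤ)))} : Finset (ℤ × ℤ)) ×ˢ
      ({p / RR J l, p / RR J l + 1} : Finset ℤ) with hS
  have hScard : ∀ f p, (S f p).card ≤ 8 := by
    intro f p
    rw [hS]
    simp only
    rw [card_product]
    have h1 : ({((0 : ℤ), (0 : ℤ)), (bb J l, 0), (0, if f then 2 else 2 * (J : ℤ)),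
      (bb J l, -(if f then 1 else (J : ℤ)))} : Finset (ℤ × ℤ)).card ≤ 4 := card_le_four
    have h2 : ({p / RR J l, p / RR J l + 1} : Finset ℤ).card ≤ 2 := card_le_two
    calc _ ≤ 4 * 2 := Nat.mul_le_mul h1 h2
      _ = 8 := rfl
  have hclS : ∀ f p τ, 0 ≤ τ → τ < RR J l → cl f p τ ∈ S f p := by
    intro f p τ h0 h1
    rw [hcl, hS]
    simp only
    rw [mem_product]
    constructor
    · simp only [mem_insert, mem_singleton]
      exact ker_mem _ _ _ _ _ _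
    · simp only [mem_insert, mem_singleton]
      exact div_range _ _ _ h0 h1
  clear hS
  clear_value S
  set g : ℤ → ((ℤ × ℤ) × ℤ) × (((ℤ × ℤ) × ℤ) × ((ℤ × ℤ) × ℤ)) :=
    fun τ => (cl fx x τ, (cl fy y τ, cl fz z τ)) with hg
  have himg : (T.image g).card ≤ 512 := by
    have hsub : T.image g ⊆ S fx x ×ˢ (S fy y ×ˢ S fz z) := by
      intro a ha
      obtain ⟨τ, hτ, rfl⟩ := mem_image.mp ha
      have h := (hT τ hτ).1
      rw [hg]
      simp only
      rw [mem_product, mem_product]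
      exact ⟨hclS _ _ _ h.1 h.2, hclS _ _ _ h.1 h.2, hclS _ _ _ h.1 h.2⟩
    refine (card_le_card hsub).trans ?_
    rw [card_product, card_product]
    calc _ ≤ 8 * (8 * 8) := Nat.mul_le_mul (hScard _ _) (Nat.mul_le_mul (hScard _ _) (hScard _ _))
      _ = 512 := rfl
  have hfib : ∀ a ∈ T.image g, (T.filter (fun τ => g τ = a)).card ≤ M := by
    intro a _
    refine card_le_of_close_int _ M ?_
    intro i hi j hj
    rw [mem_filter] at hi hj
    have hij : g i = g j := hi.2.trans hj.2.symm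
    rw [hg] at hij
    simp only [Prod.mk.injEq, hcl] at hij
    obtain ⟨⟨a1, a2⟩, ⟨b1, b2⟩, ⟨c1, c2⟩⟩ := hij
    obtain ⟨_, p2, p3, p4⟩ := hT i hi.1
    obtain ⟨_, q2, q3, q4⟩ := hT j hj.1
    by_contra hcon
    have hd : (M : ℤ) ≤ j - i := by linarith
    have hY : Yv J l j X fx fy fz x y z - Yv J l i X fx fy fz x y z =
        Es J l i X fx fy fz x y z * (j - i) := by
      unfold Yv Es
      rw [vf_eq, vf_eq, vf_eq, vf_eq, vf_eq, vf_eq, ← a1, ← a2, ← b1, ← b2, ← c1, ← c2]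
      ring
    have h1 : |Es J l i X fx fy fz x y z * (j - i)| < W := by
      rw [← hY, abs_lt]
      constructor <;> linarith
    rw [abs_mul] at h1
    have h2 : (M : ℤ) ≤ |j - i| := hd.trans (le_abs_self _)
    have h3 : D * M ≤ |Es J l i X fx fy fz x y z| * |j - i| := by
      have h4 := mul_le_mul_of_nonneg_right p2 (Int.natCast_nonneg M)
      have h5 := mul_le_mul_of_nonneg_left h2 (abs_nonneg (Es J l i X fx fy fz x y z))
      linarith
    linarith
  calc T.card ≤ M * (T.image g).card := card_le_mul_card_image T M hfib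
    _ ≤ M * 512 := Nat.mul_le_mul_left _ himg

lemma kf_speed {N : ℕ} (J l : ℕ) (τ : ℤ) (X : Fin N → Bool) (slow : Bool) (p : ℤ) :
    Sp J (kf J l τ X slow p).2 := speed_mem _ _ _ _ _ _

/-- slow count -/
lemma count_slow {N : ℕ} (J l : ℕ) (hJ : 16 ≤ J) (X : Fin N → Bool) (fx fy fz : Bool)
    (x y z v : ℤ) (T : Finset ℤ)
    (hT : ∀ τ ∈ T, (0 ≤ τ ∧ τ < RR J l) ∧ Ct J l τ X fx fy fz x y z ∧
      v ≤ Yv J l τ X fx fy fz x y z ∧ Yv J l τ X fx fy fz x y z < v + 8 * J) :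
    T.card ≤ 4096 * J := by
  have h := count_class J l X fx fy fz x y z v (8 * J) 1 (8 * J) (by push_cast; linarith) T (by
    intro τ hτ
    obtain ⟨h1, h2, h3, h4⟩ := hT τ hτ
    refine ⟨h1, ?_, h3, h4⟩
    have hne : Es J l τ X fx fy fz x y z ≠ 0 := by
      intro h0
      exact h2 (speeds_eq J (by exact_mod_cast hJ) _ _ _ (kf_speed _ _ _ _ _ _)
        (kf_speed _ _ _ _ _ _) (kf_speed _ _ _ _ _ _) h0)
    exact Int.one_le_abs hne)
  omega

/-- fast count -/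
lemma count_fast {N : ℕ} (J l : ℕ) (hJ : 16 ≤ J) (X : Fin N → Bool) (fx fy fz : Bool)
    (x y z v : ℤ) (T : Finset ℤ)
    (hT : ∀ τ ∈ T, (0 ≤ τ ∧ τ < RR J l) ∧ Ct J l τ X fx fy fz x y z ∧
      (SpF J (kf J l τ X fx x).2 ∧ SpF J (kf J l τ X fy y).2 ∧ SpF J (kf J l τ X fz z).2) ∧
      v ≤ Yv J l τ X fx fy fz x y z ∧ Yv J l τ X fx fy fz x y z < v + 8 * J) :
    T.card ≤ 4096 := by
  have h := count_class J l X fx fy fz x y z v (8 * J) J 8 (by push_cast; linarith) T (by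
    intro τ hτ
    obtain ⟨h1, h2, ⟨s1, s2, s3⟩, h3, h4⟩ := hT τ hτ
    refine ⟨h1, ?_, h3, h4⟩
    exact speeds_fast J (by exact_mod_cast hJ) _ _ _ s1 s2 s3 h2)
  omega

/-- phases whose residue lies in `[0,g)` -/
lemma count_res (R s g : ℤ) (hg : 0 ≤ g) (T : Finset ℤ)
    (hT : ∀ τ ∈ T, (0 ≤ τ ∧ τ < R) ∧ (s + τ) % R < g) : (T.card : ℤ) ≤ g := by
  have hinj : Set.InjOn (fun τ : ℤ => (s + τ) % R) (T : Set ℤ) := by
    intro a ha b hb hab
    simp only at hab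
    have h1 := (hT a ha).1
    have h2 := (hT b hb).1
    have h3 : (R : ℤ) ∣ (s + a) - (s + b) := Int.ModEq.dvd (Int.ModEq.symm hab)
    have h4 : R ∣ a - b := by
      have : (s + a) - (s + b) = a - b := by ring
      rwa [this] at h3
    have h5 : a - b = 0 := Int.eq_zero_of_abs_lt_dvd h4 (by rw [abs_lt]; constructor <;> linarith)
    linarith
  have hsub : T.image (fun τ : ℤ => (s + τ) % R) ⊆ Ico 0 g := by
    intro a ha
    obtain ⟨τ, hτ, rfl⟩ := mem_image.mp ha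
    have h := hT τ hτ
    have hR : 0 < R := by linarith [h.1.1, h.1.2]
    rw [mem_Ico]
    exact ⟨Int.emod_nonneg _ hR.ne', h.2⟩
  have h1 := card_le_card hsub
  rw [card_image_of_injOn hinj, Int.card_Ico] at h1
  omega

/-- phases for which the window meets `[s, s + w)` -/
lemma count_near (R s g w : ℤ) (hg : 0 ≤ g) (hw : 0 < w) (T : Finset ℤ)
    (hT : ∀ τ ∈ T, (0 ≤ τ ∧ τ < R) ∧ ∃ u, s ≤ u ∧ u < s + w ∧ (u + τ) % R < g) :
    (T.card : ℤ) ≤ g + w := by
  refine count_res R (s + w - 1) (g + w) (by linarith) T ?_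
  intro τ hτ
  obtain ⟨h1, u, h2, h3, h4⟩ := hT τ hτ
  refine ⟨h1, ?_⟩
  have hR : 0 < R := by linarith [h1.1, h1.2]
  have e : s + w - 1 + τ = (u + τ) + (s + w - 1 - u) := by ring
  have h5 := Int.emod_nonneg (u + τ) hR.ne'
  have h6 := Int.mul_ediv_add_emod (u + τ) R
  have e2 : s + w - 1 + τ = ((u + τ) % R + (s + w - 1 - u)) + R * ((u + τ) / R) := by linarith
  rw [e2, Int.add_mul_emod_self_left]
  have h7 : 0 ≤ (u + τ) % R + (s + w - 1 - u) := by linarith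
  have h8 : 0 ≤ R * (((u + τ) % R + (s + w - 1 - u)) / R) :=
    mul_nonneg hR.le (Int.ediv_nonneg h7 hR.le)
  rw [Int.emod_def ((u + τ) % R + (s + w - 1 - u))]
  linarith

end Pool.Agent.MTLS
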