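import Pool.Agent.MTLS.Rec

/-!
# The path of a configuration
-/

namespace Pool.Agent.MTLS

open Finset Pool.Agent.MTL

noncomputable section

variable {N : ℕ} {J : ℕ}

/-- value of the levels of `c` at `p` -/
def Gc (J : ℕ) : List (Cf N) → ℤ → ℤ
  | [], _ => 0
  | ω :: c, p => Gc J c p + vf J ω.1 ω.2.1 ω.2.2 (fl J c ω p) p

lemma UU_eq (x y z : ℤ) : ∀ c : List (Cf N),
    UU J x y z c = Gc J c x + Gc J c z - 2 * Gc J c y
  | [] => rfl
  | ω :: c => by
    have h := UU_eq x y z c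
    show UU J x y z c + Yc J x y z c ω = (Gc J c x + _) + (Gc J c z + _) - 2 * (Gc J c y + _)
    rw [h]
    unfold Yc Yv
    ring

/-- `m` lies in a window of a level of `c` -/
def Inw (J : ℕ) : List (Cf N) → ℤ → Prop
  | [], _ => False
  | ω :: c, m => Inw J c m ∨ (m + ω.2.1) % RR J ω.1 < 16 * 3 ^ ω.1

lemma Inw_near (m s w : ℤ) (h1 : s ≤ m) (h2 : m < s + w) : ∀ c : List (Cf N),
    Inw J c m → near J c s w
  | [], h => h
  | ω :: c, h => by
    rcases h with h | h
    · exact Or.inl (Inw_near m s w h1 h2 c h)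
    · exact Or.inr ⟨m, h1, h2, h⟩

lemma Gc_step (hJ : 16 ≤ J) (m : ℤ) : ∀ c : List (Cf N),
    |Gc J c (m + 1) - Gc J c m| ≤ 2 * c.length + 2 * J ∧
    (¬ Inw J c m → |Gc J c (m + 1) - Gc J c m| ≤ 2 * c.length)
  | [] => by
    unfold Gc
    simp
  | ω :: c => by
    obtain ⟨ih1, ih2⟩ := Gc_step hJ m c
    set r := (m + ω.2.1) % RR J ω.1 with hr
    have hsame : r + 1 < RR J ω.1 → fl J c ω (m + 1) = fl J c ω m := by
      intro h
      unfold fl
      have e0 : m + 1 + ω.2.1 = m + ω.2.1 + 1 := by ring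
      have e : m + 1 - (m + 1 + ω.2.1) % RR J ω.1 = m - (m + ω.2.1) % RR J ω.1 := by
        rw [e0]
        rcases divmod_succ (RR J ω.1) (m + ω.2.1) (RR_pos J ω.1 hJ) with ⟨_, _, h3⟩ | ⟨h1, _, _⟩
        · rw [h3]; ring
        · exfalso
          rw [hr, h1] at h
          linarith
      rw [e]
    obtain ⟨v1, v2, v3⟩ := vf_step J ω.1 hJ ω.2.1 ω.2.2 (fl J c ω m) (fl J c ω (m + 1)) m hsame
    set D := vf J ω.1 ω.2.1 ω.2.2 (fl J c ω (m + 1)) (m + 1) -
      vf J ω.1 ω.2.1 ω.2.2 (fl J c ω m) m with hD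
    have hG : Gc J (ω :: c) (m + 1) - Gc J (ω :: c) m = (Gc J c (m + 1) - Gc J c m) + D := by
      show (Gc J c (m + 1) + _) - (Gc J c m + _) = _
      rw [hD]; ring
    have hlen : (((ω :: c).length : ℕ) : ℤ) = c.length + 1 := by simp
    have htri : |Gc J (ω :: c) (m + 1) - Gc J (ω :: c) m| ≤
        |Gc J c (m + 1) - Gc J c m| + |D| := by rw [hG]; exact abs_add_le _ _
    have hJ0 : (16 : ℤ) ≤ J := by exact_mod_cast hJ
    have hr0 : 0 ≤ r := Int.emod_nonneg _ (RR_pos J ω.1 hJ).ne'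
    have hlate : 16 * 3 ^ ω.1 ≤ r → |D| ≤ 2 := by
      intro h
      cases hf : fl J c ω m
      · exact v3 hf h
      · exact v2 hf
    rw [hlen]
    constructor
    · by_cases hI : Inw J c m
      · have hD2 : |D| ≤ 2 := by
          rcases lt_or_ge r (16 * 3 ^ ω.1) with h | h
          · refine v2 ?_
            rw [fl_true]
            exact Inw_near m _ _ (by linarith) (by linarith) c hI
          · exact hlate h
        linarith
      · have := ih2 hI
        linarith
    · intro hI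
      have hI1 : ¬ Inw J c m := fun h => hI (Or.inl h)
      have hI2 : ¬ r < 16 * 3 ^ ω.1 := fun h => hI (Or.inr h)
      have := ih2 hI1
      have := hlate (not_lt.mp hI2)
      linarith

/-- the path -/
def SS (J : ℕ) (c : List (Cf N)) (m : ℤ) : ℤ := (4 * J * m + Gc J c m) / (8 * J)

lemma SS_steps (hJ : 16 ≤ J) (c : List (Cf N)) (hc : c.length ≤ J) : Steps (SS J c) := by
  intro m
  have h := (Gc_step hJ m c).1
  have hc' : (c.length : ℤ) ≤ J := by exact_mod_cast hc
  have hJ0 : (16 : ℤ) ≤ J := by exact_mod_cast hJ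
  rw [abs_le] at h
  unfold SS
  have h1 : (4 * J * m + Gc J c m) / (8 * J) ≤ (4 * J * (m + 1) + Gc J c (m + 1)) / (8 * J) :=
    Int.ediv_le_ediv (by linarith) (by linarith)
  have h2 : (4 * J * (m + 1) + Gc J c (m + 1)) / (8 * J) ≤
      (4 * J * m + Gc J c m + 8 * J) / (8 * J) :=
    Int.ediv_le_ediv (by linarith) (by linarith)
  rw [Int.add_ediv_of_dvd_right (dvd_refl _), Int.ediv_self (by linarith)] at h2
  omega

lemma SS_zero (hJ : 16 ≤ J) (c : List (Cf N)) (m k : ℤ) (h : ddZ (SS J c) m k = 0) :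
    |UU J (m - k) m (m + k) c| < 16 * J := by
  have hJ0 : (16 : ℤ) ≤ J := by exact_mod_cast hJ
  have hp : (0 : ℤ) < 8 * J := by linarith
  rw [UU_eq]
  have r1 := Int.emod_nonneg (4 * J * (m + k) + Gc J c (m + k)) hp.ne'
  have r2 := Int.emod_lt_of_pos (4 * J * (m + k) + Gc J c (m + k)) hp
  have r3 := Int.mul_ediv_add_emod (4 * J * (m + k) + Gc J c (m + k)) (8 * J)
  have s1 := Int.emod_nonneg (4 * J * (m - k) + Gc J c (m - k)) hp.ne'
  have s2 := Int.emod_lt_of_pos (4 * J * (m - k) + Gc J c (m - k)) hp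
  have s3 := Int.mul_ediv_add_emod (4 * J * (m - k) + Gc J c (m - k)) (8 * J)
  have t1 := Int.emod_nonneg (4 * J * m + Gc J c m) hp.ne'
  have t2 := Int.emod_lt_of_pos (4 * J * m + Gc J c m) hp
  have t3 := Int.mul_ediv_add_emod (4 * J * m + Gc J c m) (8 * J)
  unfold ddZ SS at h
  have h2 : 8 * (J : ℤ) * ((4 * J * (m + k) + Gc J c (m + k)) / (8 * J) +
      (4 * J * (m - k) + Gc J c (m - k)) / (8 * J) -
      2 * ((4 * J * m + Gc J c m) / (8 * J))) = 0 := by rw [h]; ring
  rw [abs_lt]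
  constructor <;> linarith

lemma Lv_length (J : ℕ) (t : ℕ) : ∀ c : List (Cf N), Lv J t c → c.length = t := by
  induction t with
  | zero =>
    intro c hc
    have : c = [] := hc
    rw [this]; rfl
  | succ t ih =>
    rintro _ ⟨ω, c, rfl, _, hc⟩
    simp [ih c hc]

/-- the probability of a zero -/
lemma prob_zero (hJ : 16 ≤ J) (m k n : ℤ) (hx : 0 ≤ m - k) (hz : m + k ≤ n) (hn : n + 2 < N) :
    EE (N := N) J J (fun c => ind (ddZ (SS J c) m k = 0)) ≤
      alpha J k J + 4 * beta J k J := by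
  have h1 : EE (N := N) J J (fun c => ind (ddZ (SS J c) m k = 0)) ≤
      EE (N := N) J J (fun c => ind (Zr J (m - k) m (m + k) c) +
        ind (Kr J (m - k) m (m + k) c ∧ -(16 * J) ≤ UU J (m - k) m (m + k) c ∧
          UU J (m - k) m (m + k) c < -(16 * J) + 8 * J * ((4 : ℕ) : ℤ))) := by
    refine EE_mono hJ J fun c hc => ?_
    refine (ind_mono ?_).trans (ind_or _ _)
    intro h
    have hs := SS_zero hJ c m k h
    have hs' := abs_lt.mp hs
    rcases small_cases hJ (m - k) m (m + k) (by ring) c hc hs with h2 | h2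
    · exact Or.inl h2
    · exact Or.inr ⟨h2, hs'.1.le, by push_cast; linarith⟩
  refine h1.trans ?_
  rw [EE_add]
  have hA := recA (N := N) hJ m k n hx hz hn J
  have hB := windows (N := N) hJ (m - k) m (m + k) J (beta J k J)
    (fun v => recB hJ m k n hx hz hn J le_rfl v) 4 (-(16 * J))
  push_cast at hB ⊢
  linarith

end

end Pool.Agent.MTLS
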