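import Pool.Agent.MTLS.Est

/-!
# The recursion from the top level down
-/

namespace Pool.Agent.MTLS

open Finset

noncomputable section

variable {N : ℕ} {J : ℕ}

/-- bound for the probability that all levels so far are lattice-zero -/
def alpha (J : ℕ) (k : ℤ) : ℕ → ℝ
  | 0 => 1
  | t + 1 => lam J k (J - 1 - t) * alpha J k t

/-- bound for the probability of a window nearby -/
def nu (J : ℕ) : ℕ → ℝ
  | 0 => 0
  | t + 1 => nu J t + 32 / (J * (((J - 1 - t : ℕ) + 13) * ((J - 1 - t : ℕ) + 14)))

/-- bound for the density -/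
def beta (J : ℕ) (k : ℤ) : ℕ → ℝ
  | 0 => 0
  | t + 1 => beta J k t *
      (1 + 294928 / (((J - 1 - t : ℕ) + 13) * ((J - 1 - t : ℕ) + 14))) +
      1212416 * alpha J k t / RR J (J - 1 - t)

lemma alpha_pos (J : ℕ) (k : ℤ) (t : ℕ) : 0 < alpha J k t := by
  induction t with
  | zero => exact one_pos
  | succ t ih =>
    have := lam_ge J k (J - 1 - t)
    exact mul_pos (by linarith) ih

lemma nu_nonneg (J : ℕ) (t : ℕ) : 0 ≤ nu J t := by
  induction t with
  | zero => exact le_rfl
  | succ t ih =>
    unfold nu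
    have : (0 : ℝ) ≤ 32 / (J * (((J - 1 - t : ℕ) + 13) * ((J - 1 - t : ℕ) + 14))) := by
      positivity
    linarith

lemma beta_nonneg (hJ : 16 ≤ J) (k : ℤ) (t : ℕ) : 0 ≤ beta J k t := by
  induction t with
  | zero => exact le_rfl
  | succ t ih =>
    unfold beta
    have h1 := alpha_pos J k t
    have h2 : (0 : ℝ) < RR J (J - 1 - t) := by exact_mod_cast RR_pos J _ hJ
    positivity

lemma nu_le (hJ : 16 ≤ J) (t : ℕ) (ht : t ≤ J) :
    nu J t ≤ 32 / J * (1 / ((J - t : ℕ) + 13)) := by
  have hJ0 : (0 : ℝ) < J := by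
    have : 0 < J := by omega
    exact_mod_cast this
  induction t with
  | zero => unfold nu; positivity
  | succ t ih =>
    have h1 := ih (by omega)
    unfold nu
    have e1 : (J - t : ℕ) = (J - 1 - t : ℕ) + 1 := by omega
    have e2 : J - (t + 1) = J - 1 - t := by omega
    rw [e1] at h1
    rw [e2]
    push_cast at h1
    set a : ℝ := ((J - 1 - t : ℕ) : ℝ) with ha
    have ha0 : 0 ≤ a := Nat.cast_nonneg _
    have e3 : 32 / (J : ℝ) * (1 / (a + 13)) = 32 / J * (1 / (a + 1 + 13)) +
        32 / (J * ((a + 13) * (a + 14))) := by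
      field_simp
      ring
    rw [e3]
    linarith

/-- (A) -/
lemma recA (hJ : 16 ≤ J) (m k n : ℤ) (hx : 0 ≤ m - k) (hz : m + k ≤ n) (hn : n + 2 < N)
    (t : ℕ) : EE (N := N) J t (fun c => ind (Zr J (m - k) m (m + k) c)) ≤ alpha J k t := by
  induction t with
  | zero =>
    show ind True ≤ 1
    rw [ind_true trivial]
  | succ t ih =>
    have h1 : EE (N := N) J (t + 1) (fun c => ind (Zr J (m - k) m (m + k) c)) ≤
        EE (N := N) J t (fun c => lam J k (J - 1 - t) * ind (Zr J (m - k) m (m + k) c)) := by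
      refine EE_mono hJ t fun c _ => ?_
      have e : ∀ ω : Cf N, ind (Zr J (m - k) m (m + k) (ω :: c)) =
          ind (Zr J (m - k) m (m + k) c) * ind (¬ Cc J (m - k) m (m + k) c ω ∧
            Yc J (m - k) m (m + k) c ω = 0) := fun ω => ind_and _ _
      simp only [e]
      rw [av_mul, mul_comm]
      exact mul_le_mul_of_nonneg_right (av_LZ hJ _ m k n hx hz hn c) (ind_nonneg _)
    refine h1.trans ?_
    rw [EE_mul]
    exact mul_le_mul_of_nonneg_left ih (by linarith [lam_ge J k (J - 1 - t)])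

/-- (A') -/
lemma recA' (hJ : 16 ≤ J) (m k n : ℤ) (hx : 0 ≤ m - k) (hz : m + k ≤ n) (hn : n + 2 < N)
    (t : ℕ) (ht : t ≤ J) (s w : ℤ) (hw : 0 < w) (hw2 : w ≤ 16 * 3 ^ (J - t)) :
    EE (N := N) J t (fun c => ind (Zr J (m - k) m (m + k) c) * ind (near J c s w)) ≤
      4 * alpha J k t * nu J t := by
  induction t with
  | zero =>
    show ind True * ind False ≤ 4 * 1 * 0
    rw [ind_false not_false]
    simp
  | succ t ih =>
    have e2 : J - (t + 1) = J - 1 - t := by omega
    have e3 : J - t = (J - 1 - t) + 1 := by omega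
    rw [e2] at hw2
    have hpos : (0 : ℤ) < 3 ^ (J - 1 - t) := by positivity
    have ih' := ih (by omega) (by rw [e3, pow_succ]; linarith)
    set l := J - 1 - t with hl
    set ν : ℝ := 32 / (J * (((l : ℕ) + 13) * ((l : ℕ) + 14))) with hν
    have h1 : EE (N := N) J (t + 1) (fun c => ind (Zr J (m - k) m (m + k) c) *
        ind (near J c s w)) ≤
        EE (N := N) J t (fun c => lam J k l * (ind (Zr J (m - k) m (m + k) c) *
          ind (near J c s w)) + ν * ind (Zr J (m - k) m (m + k) c)) := by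
      refine EE_mono hJ t fun c _ => ?_
      have step1 : av J l (fun ω : Cf N => ind (Zr J (m - k) m (m + k) (ω :: c)) *
          ind (near J (ω :: c) s w)) ≤ av J l (fun ω : Cf N =>
          (ind (Zr J (m - k) m (m + k) c) * ind (near J c s w)) *
            ind (¬ Cc J (m - k) m (m + k) c ω ∧ Yc J (m - k) m (m + k) c ω = 0) +
          ind (Zr J (m - k) m (m + k) c) * ind (∃ u, s ≤ u ∧ u < s + w ∧
            (u + ω.2.1) % RR J l < 16 * 3 ^ l)) := by
        refine av_mono hJ l fun τ X _ _ => ?_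
        have e4 : ind (Zr J (m - k) m (m + k) ((l, τ, X) :: c)) =
          ind (Zr J (m - k) m (m + k) c) * ind (¬ Cc J (m - k) m (m + k) c (l, τ, X) ∧
            Yc J (m - k) m (m + k) c (l, τ, X) = 0) := ind_and _ _
        have e5 : ind (near J ((l, τ, X) :: c) s w) ≤ ind (near J c s w) +
            ind (∃ u, s ≤ u ∧ u < s + w ∧ (u + τ) % RR J l < 16 * 3 ^ l) := ind_or _ _
        rw [e4]
        set A := ind (Zr J (m - k) m (m + k) c)
        set B := ind (¬ Cc J (m - k) m (m + k) c (l, τ, X) ∧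
            Yc J (m - k) m (m + k) c (l, τ, X) = 0)
        set C := ind (near J c s w)
        set D := ind (∃ u, s ≤ u ∧ u < s + w ∧ (u + τ) % RR J l < 16 * 3 ^ l)
        have hA : 0 ≤ A := ind_nonneg _
        have hB : 0 ≤ B := ind_nonneg _
        have hB1 : B ≤ 1 := ind_le_one _
        have hD : 0 ≤ D := ind_nonneg _
        have h2 : A * B * ind (near J ((l, τ, X) :: c) s w) ≤ A * B * (C + D) :=
          mul_le_mul_of_nonneg_left e5 (mul_nonneg hA hB)
        have h3 : A * B * D ≤ A * D := by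
          have := mul_le_mul_of_nonneg_left hB1 (mul_nonneg hA hD)
          linarith
        show A * B * ind (near J ((l, τ, X) :: c) s w) ≤ A * C * B + A * D
        linarith
      refine step1.trans ?_
      rw [av_add, av_mul, av_mul]
      have h2 := av_LZ (J := J) hJ l m k n hx hz hn c
      have h3 := av_near (N := N) hJ l s w hw hw2
      have h4 := mul_le_mul_of_nonneg_left h2 (mul_nonneg
        (ind_nonneg (Zr J (m - k) m (m + k) c)) (ind_nonneg (near J c s w)))
      have h5 := mul_le_mul_of_nonneg_left h3 (ind_nonneg (Zr J (m - k) m (m + k) c))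
      rw [hν]
      linarith
    refine h1.trans ?_
    rw [EE_add, EE_mul, EE_mul]
    have hA := recA (N := N) hJ m k n hx hz hn t
    have hl4 := lam_ge J k l
    have hν0 : 0 ≤ ν := by rw [hν]; positivity
    have ha := alpha_pos J k t
    have h6 : lam J k l * EE (N := N) J t (fun c => ind (Zr J (m - k) m (m + k) c) *
        ind (near J c s w)) ≤ lam J k l * (4 * alpha J k t * nu J t) :=
      mul_le_mul_of_nonneg_left ih' (by linarith)
    have h7 : ν * EE (N := N) J t (fun c => ind (Zr J (m - k) m (m + k) c)) ≤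
        ν * alpha J k t := mul_le_mul_of_nonneg_left hA hν0
    show _ ≤ 4 * (lam J k l * alpha J k t) * (nu J t + ν)
    have h8 : ν * alpha J k t ≤ 4 * (lam J k l * alpha J k t) * ν := by
      have h9 : 1 * (ν * alpha J k t) ≤ (4 * lam J k l) * (ν * alpha J k t) :=
        mul_le_mul_of_nonneg_right (by linarith) (mul_nonneg hν0 ha.le)
      linarith
    linarith

/-- several windows -/
lemma windows (hJ : 16 ≤ J) (x y z : ℤ) (t : ℕ) (B : ℝ)
    (h : ∀ v : ℤ, EE (N := N) J t (fun c => ind (Kr J x y z c ∧ v ≤ UU J x y z c ∧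
      UU J x y z c < v + 8 * J)) ≤ B) (M : ℕ) (v : ℤ) :
    EE (N := N) J t (fun c => ind (Kr J x y z c ∧ v ≤ UU J x y z c ∧
      UU J x y z c < v + 8 * J * M)) ≤ M * B := by
  induction M with
  | zero =>
    have : EE (N := N) J t (fun c => ind (Kr J x y z c ∧ v ≤ UU J x y z c ∧
      UU J x y z c < v + 8 * J * (0 : ℕ))) ≤ EE (N := N) J t (fun _ => 0) := by
      refine EE_mono hJ t fun c _ => ?_
      rw [ind_false]
      rintro ⟨_, h1, h2⟩
      push_cast at h2
      linarith
    rw [EE_const hJ] at this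
    simpa using this
  | succ M ih =>
    have h1 : EE (N := N) J t (fun c => ind (Kr J x y z c ∧ v ≤ UU J x y z c ∧
        UU J x y z c < v + 8 * J * ((M + 1 : ℕ) : ℤ))) ≤
        EE (N := N) J t (fun c => ind (Kr J x y z c ∧ v ≤ UU J x y z c ∧
        UU J x y z c < v + 8 * J * M) + ind (Kr J x y z c ∧ v + 8 * J * M ≤ UU J x y z c ∧
        UU J x y z c < (v + 8 * J * M) + 8 * J)) := by
      refine EE_mono hJ t fun c _ => ?_
      refine (ind_mono ?_).trans (ind_or _ _)
      rintro ⟨h1, h2, h3⟩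
      push_cast at h3
      rcases lt_or_ge (UU J x y z c) (v + 8 * J * M) with h4 | h4
      · exact Or.inl ⟨h1, h2, h4⟩
      · exact Or.inr ⟨h1, h4, by linarith⟩
    rw [EE_add] at h1
    have h2 := h (v + 8 * J * M)
    push_cast
    push_cast at h1
    linarith

/-- the slow part for lattice-zero upper levels -/
lemma slow_part (hJ : 16 ≤ J) (m k n : ℤ) (hx : 0 ≤ m - k) (hz : m + k ≤ n)
    (hn : n + 2 < N) (t : ℕ) (ht : t < J) (v : ℤ) :
    EE (N := N) J t (fun c => av J (J - 1 - t) (fun ω => ind (Zr J (m - k) m (m + k) c) *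
      ind (Cc J (m - k) m (m + k) c ω ∧ ¬ Fc J (m - k) m (m + k) c ω ∧
        v ≤ Yc J (m - k) m (m + k) c ω ∧ Yc J (m - k) m (m + k) c ω < v + 8 * J))) ≤
      1179648 * alpha J k t / RR J (J - 1 - t) := by
  set l := J - 1 - t with hl
  set Q : Bool × Bool × Bool → Cf N → Prop := fun φ ω =>
    Ct J ω.1 ω.2.1 ω.2.2 φ.1 φ.2.1 φ.2.2 (m - k) m (m + k) ∧
      v ≤ Yv J ω.1 ω.2.1 ω.2.2 φ.1 φ.2.1 φ.2.2 (m - k) m (m + k) ∧
      Yv J ω.1 ω.2.1 ω.2.2 φ.1 φ.2.1 φ.2.2 (m - k) m (m + k) < v + 8 * J with hQ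
  set G : ℤ → Cf N → List (Cf N) → ℝ := fun p ω c => ind (Zr J (m - k) m (m + k) c) *
    ind (near J c (p - (p + ω.2.1) % RR J ω.1) (16 * 3 ^ ω.1)) with hG
  -- pointwise
  have h1 : EE (N := N) J t (fun c => av J l (fun ω => ind (Zr J (m - k) m (m + k) c) *
      ind (Cc J (m - k) m (m + k) c ω ∧ ¬ Fc J (m - k) m (m + k) c ω ∧
        v ≤ Yc J (m - k) m (m + k) c ω ∧ Yc J (m - k) m (m + k) c ω < v + 8 * J))) ≤
      EE (N := N) J t (fun c => av J l (fun ω => ∑ φ : Bool × Bool × Bool, ind (Q φ ω) *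
        (G (m - k) ω c + G m ω c + G (m + k) ω c))) := by
    refine EE_mono hJ t fun c _ => av_mono hJ l fun τ X _ _ => ?_
    set ω : Cf N := (l, τ, X) with hω
    have hG0 : ∀ p, 0 ≤ G p ω c := fun p => mul_nonneg (ind_nonneg _) (ind_nonneg _)
    have hsum : ind (Q (fl J c ω (m - k), fl J c ω m, fl J c ω (m + k)) ω) *
        (G (m - k) ω c + G m ω c + G (m + k) ω c) ≤ ∑ φ : Bool × Bool × Bool, ind (Q φ ω) *
        (G (m - k) ω c + G m ω c + G (m + k) ω c) :=
      Finset.single_le_sum (f := fun φ : Bool × Bool × Bool => ind (Q φ ω) *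
        (G (m - k) ω c + G m ω c + G (m + k) ω c))
        (fun φ _ => mul_nonneg (ind_nonneg _) (by linarith [hG0 (m - k), hG0 m, hG0 (m + k)]))
        (mem_univ _)
    refine le_trans ?_ hsum
    by_cases hE : Cc J (m - k) m (m + k) c ω ∧ ¬ Fc J (m - k) m (m + k) c ω ∧
        v ≤ Yc J (m - k) m (m + k) c ω ∧ Yc J (m - k) m (m + k) c ω < v + 8 * J
    · rw [ind_true hE, mul_one]
      have hQt : Q (fl J c ω (m - k), fl J c ω m, fl J c ω (m + k)) ω :=
        ⟨hE.1, hE.2.2.1, hE.2.2.2⟩
      rw [ind_true hQt, one_mul]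
      have hF := hE.2.1
      have key : ∀ p, ¬ SpF J (kf J ω.1 ω.2.1 ω.2.2 (fl J c ω p) p).2 →
          ind (Zr J (m - k) m (m + k) c) ≤ G p ω c := by
        intro p hp
        have hfl : fl J c ω p = true := by
          by_contra hcon
          have hf : fl J c ω p = false := by simpa using hcon
          apply hp
          rw [hf]
          exact speed_fast _ _ _ _ _
        have hn := (fl_true c ω p).mp hfl
        rw [hG]
        simp only
        rw [ind_true hn, mul_one]
      unfold Fc at hF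
      by_cases h2 : SpF J (kf J ω.1 ω.2.1 ω.2.2 (fl J c ω (m - k)) (m - k)).2
      · by_cases h3 : SpF J (kf J ω.1 ω.2.1 ω.2.2 (fl J c ω m) m).2
        · by_cases h4 : SpF J (kf J ω.1 ω.2.1 ω.2.2 (fl J c ω (m + k)) (m + k)).2
          · exact absurd ⟨h2, h3, h4⟩ hF
          · linarith [key _ h4, hG0 (m - k), hG0 m]
        · linarith [key _ h3, hG0 (m - k), hG0 (m + k)]
      · linarith [key _ h2, hG0 m, hG0 (m + k)]
    · rw [ind_false hE, mul_zero]
      exact mul_nonneg (ind_nonneg _) (by linarith [hG0 (m - k), hG0 m, hG0 (m + k)])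
  refine h1.trans ?_
  rw [EE_av]
  -- the inner expectation
  have hlt : J - t = l + 1 := by omega
  have hG1 : ∀ p τ X, EE (N := N) J t (fun c => G p (l, τ, X) c) ≤
      4 * alpha J k t * nu J t := by
    intro p τ X
    have := recA' (N := N) hJ m k n hx hz hn t (by omega) (p - (p + τ) % RR J l)
      (16 * 3 ^ l) (by positivity) (by
        rw [hlt, pow_succ]
        have : (0 : ℤ) < 3 ^ l := by positivity
        linarith)
    exact this
  have h2 : av (N := N) J l (fun ω => EE J t (fun c => ∑ φ : Bool × Bool × Bool,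
      ind (Q φ ω) * (G (m - k) ω c + G m ω c + G (m + k) ω c))) ≤
      av (N := N) J l (fun ω => ∑ φ : Bool × Bool × Bool,
        (12 * alpha J k t * nu J t) * ind (Q φ ω)) := by
    refine av_mono hJ l fun τ X _ _ => ?_
    rw [EE_sum]
    refine Finset.sum_le_sum fun φ _ => ?_
    have e : EE (N := N) J t (fun c => ind (Q φ (l, τ, X)) * (G (m - k) (l, τ, X) c +
        G m (l, τ, X) c + G (m + k) (l, τ, X) c)) = ind (Q φ (l, τ, X)) *
        (EE (N := N) J t (fun c => G (m - k) (l, τ, X) c) +
          EE (N := N) J t (fun c => G m (l, τ, X) c) +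
          EE (N := N) J t (fun c => G (m + k) (l, τ, X) c)) := by
      rw [EE_mul, EE_add, EE_add]
    rw [e, mul_comm]
    refine mul_le_mul_of_nonneg_right ?_ (ind_nonneg _)
    linarith [hG1 (m - k) τ X, hG1 m τ X, hG1 (m + k) τ X]
  refine h2.trans ?_
  rw [av_sum]
  have hRp : (0 : ℝ) < RR J l := by exact_mod_cast RR_pos J l hJ
  have ha := alpha_pos J k t
  have hnu0 := nu_nonneg J t
  have h3 : ∀ φ ∈ (univ : Finset (Bool × Bool × Bool)), av (N := N) J l (fun ω =>
      (12 * alpha J k t * nu J t) * ind (Q φ ω)) ≤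
      (12 * alpha J k t * nu J t) * ((4096 * J) / RR J l) := by
    intro φ _
    rw [av_mul]
    refine mul_le_mul_of_nonneg_left ?_ (by positivity)
    refine av_le_of_phase hJ l _ _ fun X T hT h => ?_
    have := count_slow J l hJ X φ.1 φ.2.1 φ.2.2 (m - k) m (m + k) v T (fun τ hτ =>
      ⟨mem_Ico.mp (hT hτ), (h τ hτ).1, (h τ hτ).2⟩)
    exact_mod_cast this
  refine (Finset.sum_le_sum h3).trans ?_
  rw [Finset.sum_const, card_univ, Fintype.card_prod, Fintype.card_prod, Fintype.card_bool,
    nsmul_eq_mul]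
  have hJ0 : (0 : ℝ) < J := by
    have : 0 < J := by omega
    exact_mod_cast this
  have hnu : J * nu J t ≤ 3 := by
    have h4 := nu_le hJ t (by omega)
    have h5 : (1 : ℝ) / ((J - t : ℕ) + 13) ≤ 1 / 13 := by
      apply one_div_le_one_div_of_le (by norm_num)
      have : (0 : ℝ) ≤ ((J - t : ℕ) : ℝ) := Nat.cast_nonneg _
      linarith
    have h6 : nu J t ≤ 32 / J * (1 / 13) :=
      h4.trans (mul_le_mul_of_nonneg_left h5 (by positivity))
    have h7 := mul_le_mul_of_nonneg_left h6 hJ0.le
    have h8 : (J : ℝ) * (32 / J * (1 / 13)) = 32 / 13 := by field_simp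
    linarith
  push_cast
  have e9 : 8 * (12 * alpha J k t * nu J t * (4096 * (J : ℝ) / (RR J l : ℝ))) =
      393216 * alpha J k t * (J * nu J t) / RR J l := by ring
  rw [e9]
  refine div_le_div_of_nonneg_right ?_ hRp.le
  have := mul_le_mul_of_nonneg_left hnu (by positivity : 0 ≤ 393216 * alpha J k t)
  linarith

/-- (B) -/
lemma recB (hJ : 16 ≤ J) (m k n : ℤ) (hx : 0 ≤ m - k) (hz : m + k ≤ n) (hn : n + 2 < N)
    (t : ℕ) (ht : t ≤ J) (v : ℤ) :
    EE (N := N) J t (fun c => ind (Kr J (m - k) m (m + k) c ∧ v ≤ UU J (m - k) m (m + k) c ∧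
      UU J (m - k) m (m + k) c < v + 8 * J)) ≤ beta J k t := by
  induction t generalizing v with
  | zero =>
    show ind (False ∧ _) ≤ 0
    rw [ind_false (fun h => h.1)]
  | succ t ih =>
    have ih' := fun v => ih (by omega) v
    set l := J - 1 - t with hl
    set x := m - k with hxdef
    set z := m + k with hzdef
    have hJ0 : (0 : ℝ) < J := by
      have : 0 < J := by omega
      exact_mod_cast this
    have hRp : (0 : ℝ) < RR J l := by exact_mod_cast RR_pos J l hJ
    have hbp := bb_pos J l hJ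
    set bf : Cf N → ℤ := fun ω => bb J l * (bi (bit ω.2.2 ((x + ω.2.1) / RR J l + 1)) +
      bi (bit ω.2.2 ((z + ω.2.1) / RR J l + 1)) -
      2 * bi (bit ω.2.2 ((m + ω.2.1) / RR J l + 1))) with hbf
    -- pointwise splitting
    have hsplit : EE (N := N) J (t + 1) (fun c => ind (Kr J x m z c ∧ v ≤ UU J x m z c ∧
        UU J x m z c < v + 8 * J)) ≤
        EE (N := N) J t (fun c => av J l (fun ω =>
          ind (Kr J x m z c ∧ v - bf ω ≤ UU J x m z c ∧ UU J x m z c < v - bf ω + 8 * J)) +
        (ind (Kr J x m z c ∧ v ≤ UU J x m z c ∧ UU J x m z c < v + 8 * J) *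
            (16 / ((l + 13) * (l + 14))) +
        (ind (Kr J x m z c ∧ v - 2 * bb J l ≤ UU J x m z c ∧ UU J x m z c < v - 2 * bb J l +
            8 * J * ((9 * 3 ^ l : ℕ) : ℤ)) * (32768 * J / RR J l) +
        (ind (Zr J x m z c) * (32768 / RR J l) +
        av J l (fun ω => ind (Zr J x m z c) * ind (Cc J x m z c ω ∧ ¬ Fc J x m z c ω ∧
          v ≤ Yc J x m z c ω ∧ Yc J x m z c ω < v + 8 * J)))))) := by
      refine EE_mono hJ t fun c _ => ?_
      have hp : av J l (fun ω => ind (Kr J x m z (ω :: c) ∧ v ≤ UU J x m z (ω :: c) ∧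
          UU J x m z (ω :: c) < v + 8 * J)) ≤
          av J l (fun ω =>
          ind (Kr J x m z c ∧ v - bf ω ≤ UU J x m z c ∧ UU J x m z c < v - bf ω + 8 * J) +
          (ind (Kr J x m z c ∧ v ≤ UU J x m z c ∧ UU J x m z c < v + 8 * J) *
            ind ((x + ω.2.1) % RR J l < bb J l) +
          (ind (Kr J x m z c ∧ v - 2 * bb J l ≤ UU J x m z c ∧ UU J x m z c < v - 2 * bb J l +
            8 * J * ((9 * 3 ^ l : ℕ) : ℤ)) * ind (Cc J x m z c ω ∧
              (v - UU J x m z c) ≤ Yc J x m z c ω ∧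
              Yc J x m z c ω < (v - UU J x m z c) + 8 * J) +
          (ind (Zr J x m z c) * ind (Cc J x m z c ω ∧ Fc J x m z c ω ∧
            v ≤ Yc J x m z c ω ∧ Yc J x m z c ω < v + 8 * J) +
          ind (Zr J x m z c) * ind (Cc J x m z c ω ∧ ¬ Fc J x m z c ω ∧
            v ≤ Yc J x m z c ω ∧ Yc J x m z c ω < v + 8 * J))))) := by
        refine av_mono hJ l fun τ X _ _ => ?_
        set ω : Cf N := (l, τ, X) with hω
        have n1 := ind_nonneg (Kr J x m z c ∧ v - bf ω ≤ UU J x m z c ∧
          UU J x m z c < v - bf ω + 8 * J)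
        have n2 := mul_nonneg (ind_nonneg (Kr J x m z c ∧ v ≤ UU J x m z c ∧
          UU J x m z c < v + 8 * J)) (ind_nonneg ((x + ω.2.1) % RR J l < bb J l))
        have n3 := mul_nonneg (ind_nonneg (Kr J x m z c ∧ v - 2 * bb J l ≤ UU J x m z c ∧
          UU J x m z c < v - 2 * bb J l + 8 * J * ((9 * 3 ^ l : ℕ) : ℤ)))
          (ind_nonneg (Cc J x m z c ω ∧ (v - UU J x m z c) ≤ Yc J x m z c ω ∧
              Yc J x m z c ω < (v - UU J x m z c) + 8 * J))
        have n4 := mul_nonneg (ind_nonneg (Zr J x m z c)) (ind_nonneg (Cc J x m z c ω ∧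
          Fc J x m z c ω ∧ v ≤ Yc J x m z c ω ∧ Yc J x m z c ω < v + 8 * J))
        have n5 := mul_nonneg (ind_nonneg (Zr J x m z c)) (ind_nonneg (Cc J x m z c ω ∧
          ¬ Fc J x m z c ω ∧ v ≤ Yc J x m z c ω ∧ Yc J x m z c ω < v + 8 * J))
        by_cases hE : Kr J x m z (ω :: c) ∧ v ≤ UU J x m z (ω :: c) ∧
            UU J x m z (ω :: c) < v + 8 * J
        · rw [ind_true hE]
          obtain ⟨hK, hU1, hU2⟩ := hE
          have hU1' : v ≤ UU J x m z c + Yc J x m z c ω := hU1
          have hU2' : UU J x m z c + Yc J x m z c ω < v + 8 * J := hU2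
          have hK' : Kr J x m z c ∨ (Zr J x m z c ∧ Cc J x m z c ω) := hK
          rcases hK' with hK' | ⟨hZ, hC⟩
          · by_cases hC : Cc J x m z c ω
            · have hYb : |Yc J x m z c ω| ≤ 2 * bb J l := Yv_bounds hJ _ _ _ _ _ _ _ _ _
              rw [abs_le] at hYb
              have e1 := ind_true (P := Kr J x m z c ∧ v - 2 * bb J l ≤ UU J x m z c ∧
                UU J x m z c < v - 2 * bb J l + 8 * J * ((9 * 3 ^ l : ℕ) : ℤ))
                ⟨hK', by linarith, by
                  have hb : bb J l = 16 * J * 3 ^ l := rfl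
                  have h3 : (1 : ℤ) ≤ 3 ^ l := one_le_pow₀ (by norm_num)
                  have hJz : (0 : ℤ) ≤ J := Int.natCast_nonneg J
                  have h4 : (8 : ℤ) * J * 1 ≤ 8 * J * 3 ^ l :=
                    mul_le_mul_of_nonneg_left h3 (by positivity)
                  push_cast
                  linarith⟩
              have e2 := ind_true (P := Cc J x m z c ω ∧ (v - UU J x m z c) ≤ Yc J x m z c ω ∧
                Yc J x m z c ω < (v - UU J x m z c) + 8 * J)
                ⟨hC, by linarith, by linarith⟩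
              rw [e1, e2] at n3 ⊢
              linarith
            · rcases lattice hJ l τ X _ _ _ x m z (by rw [hxdef, hzdef]; ring) hC with h | h
              · have hY : Yc J x m z c ω = bf ω := h
                have e1 := ind_true (P := Kr J x m z c ∧ v - bf ω ≤ UU J x m z c ∧
                  UU J x m z c < v - bf ω + 8 * J) ⟨hK', by linarith, by linarith⟩
                rw [e1] at n1 ⊢
                linarith
              · have hY : Yc J x m z c ω = 0 := h.1
                have e1 := ind_true (P := Kr J x m z c ∧ v ≤ UU J x m z c ∧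
                  UU J x m z c < v + 8 * J) ⟨hK', by linarith, by linarith⟩
                have e2 := ind_true (P := (x + ω.2.1) % RR J l < bb J l) h.2
                rw [e1, e2] at n2 ⊢
                linarith
          · have hU0 := Zr_UU x m z c hZ
            rw [hU0, zero_add] at hU1' hU2'
            have e0 := ind_true hZ
            by_cases hF : Fc J x m z c ω
            · have e1 := ind_true (P := Cc J x m z c ω ∧ Fc J x m z c ω ∧
                v ≤ Yc J x m z c ω ∧ Yc J x m z c ω < v + 8 * J) ⟨hC, hF, hU1', hU2'⟩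
              rw [e0, e1] at n4 ⊢
              rw [e0] at n5
              linarith
            · have e1 := ind_true (P := Cc J x m z c ω ∧ ¬ Fc J x m z c ω ∧
                v ≤ Yc J x m z c ω ∧ Yc J x m z c ω < v + 8 * J) ⟨hC, hF, hU1', hU2'⟩
              rw [e0, e1] at n5 ⊢
              rw [e0] at n4
              linarith
        · rw [ind_false hE]
          linarith
      refine hp.trans ?_
      rw [av_add, av_add, av_add, av_add, av_mul, av_mul, av_mul]
      have q1 : av (N := N) J l (fun ω => ind ((x + ω.2.1) % RR J l < bb J l)) ≤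
          16 / ((l + 13) * (l + 14)) := by
        have := av_res (N := N) hJ l x (bb J l) hbp.le
        rwa [bb_div_RR hJ] at this
      have q2 := av_cont hJ l x m z c (v - UU J x m z c)
      have q3 := av_fast hJ l x m z c v
      have r1 := mul_le_mul_of_nonneg_left q1 (ind_nonneg (Kr J x m z c ∧ v ≤ UU J x m z c ∧
          UU J x m z c < v + 8 * J))
      have r2 := mul_le_mul_of_nonneg_left q2 (ind_nonneg (Kr J x m z c ∧
        v - 2 * bb J l ≤ UU J x m z c ∧ UU J x m z c < v - 2 * bb J l +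
        8 * J * ((9 * 3 ^ l : ℕ) : ℤ)))
      have r3 := mul_le_mul_of_nonneg_left q3 (ind_nonneg (Zr J x m z c))
      linarith
    refine hsplit.trans ?_
    rw [EE_add, EE_add, EE_add, EE_add]
    have b0 := beta_nonneg hJ k t
    have ha := alpha_pos J k t
    -- term 1
    have t1 : EE (N := N) J t (fun c => av J l (fun ω =>
        ind (Kr J x m z c ∧ v - bf ω ≤ UU J x m z c ∧ UU J x m z c < v - bf ω + 8 * J))) ≤
        beta J k t := by
      rw [EE_av]
      have := av_mono (N := N) hJ l (Φ := fun ω => EE J t (fun c => ind (Kr J x m z c ∧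
        v - bf ω ≤ UU J x m z c ∧ UU J x m z c < v - bf ω + 8 * J)))
        (Ψ := fun _ => beta J k t) (fun τ X _ _ => ih' _)
      rwa [av_const hJ] at this
    -- term 2
    have t2 : EE (N := N) J t (fun c => ind (Kr J x m z c ∧ v ≤ UU J x m z c ∧
        UU J x m z c < v + 8 * J) * (16 / ((l + 13) * (l + 14)))) ≤
        (16 / ((l + 13) * (l + 14))) * beta J k t := by
      have e : ∀ c : List (Cf N), ind (Kr J x m z c ∧ v ≤ UU J x m z c ∧
        UU J x m z c < v + 8 * J) * (16 / (((l : ℝ) + 13) * (l + 14))) =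
        (16 / (((l : ℝ) + 13) * (l + 14))) * ind (Kr J x m z c ∧ v ≤ UU J x m z c ∧
        UU J x m z c < v + 8 * J) := fun c => mul_comm _ _
      simp only [e]
      rw [EE_mul]
      exact mul_le_mul_of_nonneg_left (ih' v) (by positivity)
    -- term 3
    have t3 : EE (N := N) J t (fun c => ind (Kr J x m z c ∧ v - 2 * bb J l ≤ UU J x m z c ∧
        UU J x m z c < v - 2 * bb J l + 8 * J * ((9 * 3 ^ l : ℕ) : ℤ)) *
        (32768 * J / RR J l)) ≤ (294912 / ((l + 13) * (l + 14))) * beta J k t := by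
      have e : ∀ c : List (Cf N), ind (Kr J x m z c ∧ v - 2 * bb J l ≤ UU J x m z c ∧
        UU J x m z c < v - 2 * bb J l + 8 * J * ((9 * 3 ^ l : ℕ) : ℤ)) *
        (32768 * J / RR J l) = (32768 * J / RR J l) * ind (Kr J x m z c ∧
        v - 2 * bb J l ≤ UU J x m z c ∧
        UU J x m z c < v - 2 * bb J l + 8 * J * ((9 * 3 ^ l : ℕ) : ℤ)) :=
        fun c => mul_comm _ _
      simp only [e]
      rw [EE_mul]
      have hw := windows (N := N) hJ x m z t (beta J k t) ih' (9 * 3 ^ l) (v - 2 * bb J l)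
      have h1 := mul_le_mul_of_nonneg_left hw (by positivity : 0 ≤ 32768 * (J : ℝ) / RR J l)
      refine h1.trans (le_of_eq ?_)
      unfold RR
      push_cast
      field_simp
      ring
    -- term 4
    have t4 : EE (N := N) J t (fun c => ind (Zr J x m z c) * (32768 / RR J l)) ≤
        (32768 / RR J l) * alpha J k t := by
      have e : ∀ c : List (Cf N), ind (Zr J x m z c) * (32768 / (RR J l : ℝ)) =
        (32768 / (RR J l : ℝ)) * ind (Zr J x m z c) := fun c => mul_comm _ _
      simp only [e]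
      rw [EE_mul]
      exact mul_le_mul_of_nonneg_left (recA hJ m k n hx hz hn t) (by positivity)
    -- term 5
    have t5 := slow_part (N := N) hJ m k n hx hz hn t (by omega) v
    rw [← hl] at t5
    show _ ≤ beta J k t * (1 + 294928 / (((l : ℕ) + 13) * ((l : ℕ) + 14))) +
      1212416 * alpha J k t / RR J l
    have e6 : (1212416 : ℝ) * alpha J k t / RR J l = (32768 / RR J l) * alpha J k t +
        1179648 * alpha J k t / RR J l := by ring
    have e7 : beta J k t * (1 + 294928 / (((l : ℝ) + 13) * (l + 14))) = beta J k t +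
        (16 / ((l + 13) * (l + 14))) * beta J k t +
        (294912 / ((l + 13) * (l + 14))) * beta J k t := by ring
    rw [e6, e7]
    linarith

end

end Pool.Agent.MTLS
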