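import Pool.Agent.MTL.Words
import Pool.Agent.MTLS.Final

/-!
# The exact order of `MTL(n)`
-/

namespace Pool.Agent.MTLS

open Pool.Agent.MTL

theorem MTL_upper_sharp : ∃ C : ℝ, 0 < C ∧ ∀ n : ℕ, 4 ≤ n →
    (MTL.MTL n : ℝ) ≤ C * n * Real.log n := by
  obtain ⟨C, hC, h⟩ := upper_sharp
  refine ⟨C, hC, fun n hn => ?_⟩
  obtain ⟨S, hS, hcard⟩ := h n hn
  have h1 := MTL_le (word S n)
  rw [occ_eq, word_length, word_ZZ hS] at h1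
  have h2 : (MTL.MTL n : ℝ) ≤ (ZZ S n).card := by exact_mod_cast h1
  linarith

theorem MTL_theta : ∃ c C : ℝ, 0 < c ∧ 0 < C ∧ ∀ n : ℕ, 4 ≤ n →
    c * n * Real.log n ≤ MTL.MTL n ∧ (MTL.MTL n : ℝ) ≤ C * n * Real.log n := by
  obtain ⟨c, hc, h1⟩ := MTL_lower
  obtain ⟨C, hC, h2⟩ := MTL_upper_sharp
  exact ⟨c, C, hc, hC, fun n hn => ⟨h1 n hn, h2 n hn⟩⟩

end Pool.Agent.MTLS
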